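import Pool.Agent.P.MP_8707bd_ag.Col.Main
import Pool.Agent.P.MP_8707bd_ag.Nef.Big
import Pool.Agent.P.MP_8707bd_ag.Small.Body

/-!
The expected dimension for at least 36 points (helper file only).
-/

namespace Pool.Agent.P.MP_8707bd_ag.Col

open Win

lemma table_big : ∀ r < 81, 36 ≤ r → r % 4 ≠ 0 → ∃ k < 9, (k + 18) ^ 2 ≤ 9 * r ∧
    4 * (k + 9) ≤ r ∧ r - 4 * (k + 9) ≤ 12 ∧ 9 * (r - 4 * (k + 9)) ^ 2 ≤ 16 * r := by
  decide +kernel

theorem cert_big {r : ℕ} (hr : 36 ≤ r) : Cert r := by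
  by_cases h4 : r % 4 = 0
  · obtain ⟨n, rfl⟩ : ∃ n, r = 4 * n := ⟨r / 4, by omega⟩
    exact cert_four (by omega)
  have h6 := sqrt_six hr
  have h2 : √(r : ℝ) ^ 2 = r := Real.sq_sqrt (Nat.cast_nonneg r)
  by_cases h81 : r < 81
  · obtain ⟨k, -, k1, k2, k3, k4⟩ := table_big r h81 hr h4
    obtain ⟨t, rfl⟩ := Nat.exists_eq_add_of_le k2
    rw [Nat.add_sub_cancel_left] at k3 k4
    have k1' : ((k : ℝ) + 18) ^ 2 ≤ (3 * √((4 * (k + 9) + t : ℕ) : ℝ)) ^ 2 := by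
      rw [mul_pow, h2]
      exact_mod_cast k1
    have k4' : (3 * (t : ℝ)) ^ 2 ≤ (4 * √((4 * (k + 9) + t : ℕ) : ℝ)) ^ 2 := by
      rw [mul_pow, mul_pow, h2]
      exact_mod_cast k4
    exact ⟨k + 9, t, rfl, k3, le_of_pow_le_pow_left₀ two_ne_zero (by linarith) k4', Nef.nef_B (π := k)
      (le_of_pow_le_pow_left₀ two_ne_zero (by linarith) k1') le_rfl (by rw [h2]; push_cast; linarith)⟩
  have h9 : 9 ≤ √(r : ℝ) := Real.le_sqrt_of_sq_le (by exact_mod_cast not_lt.1 h81)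
  obtain ⟨n, t, rfl, t1, t2⟩ : ∃ n t, r = 4 * n + t ∧ 9 ≤ t ∧ t ≤ 12 :=
    ⟨(r - 9) / 4, r - 4 * ((r - 9) / 4), by omega, by omega, by omega⟩
  have t1' : (9 : ℝ) ≤ t := by exact_mod_cast t1
  have t2' : (t : ℝ) ≤ 12 := by exact_mod_cast t2
  refine ⟨n, t, rfl, t2, by linarith, ?_⟩
  change Nef.NEF √((4 * n + t : ℕ) : ℝ) n t
  set lam := √((4 * n + t : ℕ) : ℝ) with hlam
  push_cast at h2
  have k1 := Nat.floor_le (show 0 ≤ lam / 3 by linarith)
  have k2 := Nat.lt_floor_add_one (lam / 3)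
  have k3 : 3 ≤ ⌊lam / 3⌋₊ := Nat.le_floor (by push_cast; linarith)
  set h := ⌊lam / 3⌋₊ with hh
  have k3' : (3 : ℝ) ≤ h := by exact_mod_cast k3
  have k4 := Nat.floor_le (show 0 ≤ (3 * lam + 2) / h by positivity)
  have k5 := Nat.lt_floor_add_one ((3 * lam + 2) / h)
  set N := ⌊(3 * lam + 2) / h⌋₊ with hN
  rw [le_div_iff₀ (by linarith)] at k4
  rw [div_lt_iff₀ (by linarith)] at k5
  have k6 : (3 : ℝ) ≤ N * h := by nlinarith
  obtain ⟨e, he⟩ : ∃ e, N * h = e + 2 := Nat.exists_eq_add_of_le' (by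
    have : 3 ≤ N * h := by exact_mod_cast k6
    omega)
  have he' : (N : ℝ) * h = e + 2 := by exact_mod_cast he
  have k7 : 3 * lam - h < e := by linarith
  refine Nef.nef_A (h := h) (e := e) (by omega) ?_ (he ▸ dvd_mul_left h N) (by linarith)
    (by linarith) ?_ h2.ge
  · have : (0 : ℝ) < e := by linarith
    exact_mod_cast this
  rcases k3.eq_or_lt with h3 | h3
  · have h3' : (h : ℝ) = 3 := by exact_mod_cast h3.symm
    have : (n : ℝ) < e + 1 := by nlinarith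
    have : n < e + 1 := by exact_mod_cast this
    rw [← h3]
    omega
  · have h3' : (4 : ℝ) ≤ h := by exact_mod_cast h3
    have k8 := mul_le_mul_of_nonneg_left k7.le (by linarith : (0 : ℝ) ≤ h - 1)
    have k9 := mul_nonneg (by linarith : 0 ≤ lam - 3 * h) (by linarith : 0 ≤ 3 * h + 3 - lam)
    have : 2 * (n : ℝ) + e ≤ e * h := by nlinarith
    exact_mod_cast this

theorem ke_big {r : ℕ} (hr : 36 ≤ r) (m d : ℕ) :
    KE (tri (d + 1)) (fun _ : Fin r => m) ((d + 2).choose 2 - r * (m + 1).choose 2) :=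
  ke_of_cert le_rfl (by norm_num) (fun _ h => cert_big h) hr m d

theorem ke_out {r m d : ℕ} (hr : 10 ≤ r)
    (h : d ^ 2 ≤ r * m ^ 2 ∨ r * (m + 1) ^ 2 < (d + 3) ^ 2) :
    KE (tri (d + 1)) (fun _ : Fin r => m) ((d + 2).choose 2 - r * (m + 1).choose 2) := by
  rcases Nat.eq_zero_or_pos m with rfl | hm
  · simpa using ke_zero (fun _ : Fin r => 0) d
  rcases h with h | h
  · exact (KV.ke_nagata hr hm h).more (Nat.zero_le _)
  · refine KV.ke_upper hr (lt_of_pow_lt_pow_left₀ 2 (by positivity) ?_)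
    rw [mul_pow, Real.sq_sqrt (Nat.cast_nonneg r)]
    exact_mod_cast h

open MvPolynomial in
/-- The dimension and the statement about curves. -/
theorem both_of_ke {r m d : ℕ} (h : 10 ≤ r →
    KE (tri (d + 1)) (fun _ : Fin r => m) ((d + 2).choose 2 - r * (m + 1).choose 2)) :
    Small.Body r m d ∧ ∃ Φ : MvPolynomial (Fin r × Fin 3) ℂ, Φ ≠ 0 ∧ ∀ p : Fin r → Fin 3 → ℂ,
      eval (fun ij : Fin r × Fin 3 => p ij.1 ij.2) Φ ≠ 0 → 10 ≤ r →
      Module.finrank ℂ (fat p (fun _ => m) d) = (d + 2).choose 2 - r * (m + 1).choose 2 := by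
  by_cases hr : r ≤ 9
  · exact ⟨Small.body_small hr m d, 1, one_ne_zero, fun p _ h => absurd h (by omega)⟩
  have h1 := h (by omega)
  refine ⟨Small.body_of_ke h1, ?_⟩
  obtain ⟨Φ, h0, hΦ⟩ := transferE _ d _ h1
  obtain ⟨Ψ, h2, hΨ⟩ := Small.exists_gen r 0
  refine ⟨Φ * Ψ, mul_ne_zero h0 h2, fun p hp _ => ?_⟩
  rw [map_mul, mul_ne_zero_iff] at hp
  have h3 := hΦ p hp.1
  have h4 := Small.lower_fa p (hΨ p hp.2).1 (fun _ => m) d
  rw [Finset.sum_const, Finset.card_univ, Fintype.card_fin, smul_eq_mul] at h4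
  omega

end Pool.Agent.P.MP_8707bd_ag.Col
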