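import Pool.Agent.P.MP_8707bd_ag.Col.Chord
import Pool.Agent.P.MP_8707bd_ag.Col.Big
import Pool.Agent.P.MP_8707bd_ag.Nef.Hyp

/-!
A checker for the inequalities which give the expected dimension (helper file only).
-/

namespace Pool.Agent.P.MP_8707bd_ag.Col

open MvPolynomial Module Win All Ex Multiset KV

/-- The system with `n` points of multiplicity `2 m` and `j` lowered points is nonspecial. -/
def Plus (n t j d m : ℕ) : Prop :=
  gd d (replicate (t - j) m + replicate n (2 * m) + replicate j (m - 1)) +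
    (4 * n + t) * (m + 1).choose 2 ≤ (d + 2).choose 2 + n * m + j * m

/-- The three numbers describe a region where the system is nonspecial. -/
def Wd (q n t : ℕ) (w : ℕ × ℕ × ℕ) : Prop := w.1 ≤ t ∧ ∀ m d : ℕ, 1 ≤ m → w.2.2 ≤ m →
  q * (m * √((4 * n + t : ℕ) : ℝ)) + w.2.1 < q * (d + 3) → Plus n t w.1 d m

lemma wd_nag {q n t s c : ℕ} (H : NefC n t) (hq : 0 < q) (h1 : n ≤ s) (h2 : 9 ≤ s) (h3 : 9 ≤ n + t)
    (h : s * q ^ 2 ≤ c ^ 2) : Wd q n t (n + t - s, c, 0) := by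
  refine ⟨by dsimp only; omega, fun m d hm _ hd => plus_ns H (by dsimp only; omega)
    (by dsimp only; omega) ?_ hm⟩
  have hq' : (0 : ℝ) < q := by exact_mod_cast hq
  have h4 : q * √((n + (t - (n + t - s)) : ℕ) : ℝ) ≤ c := by
    refine le_of_pow_le_pow_left₀ two_ne_zero (Nat.cast_nonneg c) ?_
    rw [mul_pow, Real.sq_sqrt (Nat.cast_nonneg _), mul_comm]
    exact_mod_cast (Nat.mul_le_mul_right _ (by omega)).trans h
  refine lt_of_mul_lt_mul_left ?_ hq'.le
  dsimp only at hd ⊢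
  linarith

lemma amp_nef {n t : ℕ} (H : NefC n t) (h : 0 < 4 * n + t) :
    AMP (genF (Fin n ⊕ Fin t)) √((4 * n + t : ℕ) : ℝ) (Sum.elim (fun _ => 2) fun _ => 1) := by
  have h0 : (0 : ℝ) < (4 * n + t : ℕ) := by exact_mod_cast h
  refine (amp_of_ke (ι := Fin n ⊕ Fin t) (D := √((4 * n + t : ℕ) : ℝ))
    (M := Sum.elim (fun _ => 2) fun _ => 1) (Real.sqrt_pos.2 h0)
    (by rw [Real.sq_sqrt h0.le]; simp; linarith) fun k e he => ?_).mono le_rfl ?_
  · refine H e _ ?_
    have := mul_lt_mul_of_pos_right he (Real.sqrt_pos.2 h0)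
    rw [mul_assoc, Real.mul_self_sqrt h0.le] at this
    refine this.trans_le (le_of_eq ?_)
    simp
    ring
  · rintro (i | i) <;> simp

lemma plus_amp {n t d m : ℕ} {D : ℝ} {M : Fin n ⊕ Fin t → ℝ} (h : AMP (genF _) D M) (hd : D < d + 3)
    (h1 : ∀ i, 2 * (m : ℝ) + 1 ≤ M (Sum.inl i)) (h2 : ∀ i, (m : ℝ) + 1 ≤ M (Sum.inr i)) :
    Plus n t 0 d m := by
  obtain ⟨k1, k2⟩ := kv_ke h (m := Sum.elim (fun _ => 2 * m) fun _ => m) hd (by
    rintro (i | i)
    · simpa using h1 i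
    · simpa using h2 i)
  have k3 := gd_le (s := replicate (t - 0) m + replicate n (2 * m) + replicate 0 (m - 1)) (by
    rw [ms_sum, ms_const, ms_const, replicate_zero, add_zero, add_comm, Nat.sub_zero]) k2
  simp only [Fintype.sum_sum_type, Sum.elim_inl, Sum.elim_inr, Finset.sum_const, Finset.card_univ,
    Fintype.card_fin, smul_eq_mul] at k1 k3
  have e1 : (2 * m + 1).choose 2 + m = 4 * (m + 1).choose 2 := by
    have b1 := Small.two_choose_fa (2 * m)
    have b2 := Small.two_choose_fa m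
    zify
    push_cast at b1
    linarith
  have e3 : (4 * n + t) * (m + 1).choose 2 = n * (2 * m + 1).choose 2 + n * m +
      t * (m + 1).choose 2 := by
    rw [← mul_add, e1]
    ring
  unfold Plus
  omega

lemma wd_crem (H : NefC 3 12) : Wd 100000 3 12 (0, 383000, 6) := by
  refine ⟨Nat.zero_le _, fun m d _ hm hd => ?_⟩
  have hm' : (6 : ℝ) ≤ m := by exact_mod_cast hm
  have a1 := (amp_nef H (by norm_num)).smul (c := m - 6) (by linarith)
  have a2 := (amp_crem (κ := Fin 12) (by simp)).smul (c := 7) (by norm_num)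
  rw [Fintype.card_fin] at a2
  have b1 : 3872 / 1000 ≤ √((3 + 12 : ℕ) : ℝ) := Real.le_sqrt_of_sq_le (by norm_num)
  have b2 : √((3 + 12 : ℕ) : ℝ) ≤ 3873 / 1000 := Real.sqrt_le_iff.2 ⟨by norm_num, by norm_num⟩
  have b3 : 48989 / 10000 ≤ √((4 * 3 + 12 : ℕ) : ℝ) := Real.le_sqrt_of_sq_le (by norm_num)
  generalize √((4 * 3 + 12 : ℕ) : ℝ) = l at hd b3 a1
  generalize √((3 + 12 : ℕ) : ℝ) = σ at b1 b2 a2
  refine plus_amp (a1.add a2) ?_ (fun i => ?_) fun i => ?_
  · push_cast at hd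
    linarith
  · simp only [Sum.elim_inl]
    linarith
  · simp only [Sum.elim_inr]
    linarith

lemma nef_empty {n t i d m a : ℕ} (H : NefC n t) (hi : i ≤ t)
    (h : (d : ℝ) * √((4 * n + t : ℕ) : ℝ) < 2 * n * a + t * m + i) :
    gd d (replicate (t - i) m + replicate n a + replicate i (m + 1)) ≤ 0 := by
  obtain ⟨c, rfl⟩ := Nat.exists_eq_add_of_le hi
  rw [Nat.add_sub_cancel_left]
  refine gd_le (μ := Sum.elim (fun _ : Fin n => a)
    (Sum.elim (fun _ : Fin i => m + 1) fun _ : Fin c => m)) ?_ (H.gen (by simp) d _ ?_)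
  · rw [ms_sum, ms_sum, ms_const, ms_const, ms_const]
    abel
  · refine h.trans_le (le_of_eq ?_)
    simp
    ring

theorem core {n t i j k d m : ℕ} (H : NefC n t) (hm : 1 ≤ m) (hk : k ≤ t) (hj : j ≤ t)
    (e1 : (d : ℝ) * √((4 * n + t : ℕ) : ℝ) < (4 * n + t : ℕ) * m + 2 * n + k)
    (b1 : k = 0 ∨ k * (m + 1) + (4 * n + t) * (m + 1).choose 2 ≤ (d + 2).choose 2)
    (p : Plus n t j d m)
    (b2 : j = 0 ∨ (d + 2).choose 2 + j * m ≤ (4 * n + t) * (m + 1).choose 2 ∨ i ≤ t ∧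
      (d : ℝ) * √((4 * n + t : ℕ) : ℝ) < (4 * n + t : ℕ) * m + i ∧
      i * ((d + 2).choose 2 + j * m + j) <
        i * ((4 * n + t) * (m + 1).choose 2) + j * (n * m) + i + j) :
    gd d (replicate (4 * n + t) m) ≤ (d + 2).choose 2 - (4 * n + t) * (m + 1).choose 2 := by
  unfold Plus at p
  rw [show replicate (4 * n + t) m = replicate t m + replicate (4 * n) m by
    rw [add_comm, replicate_add]]
  refine gd_middle d m n _ _ ?_ ?_
  · have a2 := gd_lower d j (Nat.sub_le m 1) (replicate (t - j) m + replicate n (2 * m))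
    rw [add_right_comm, ← replicate_add, Nat.sub_add_cancel hj] at a2
    rcases b2 with rfl | b2 | ⟨c1, c2, c3⟩
    · omega
    · omega
    obtain ⟨m, rfl⟩ := Nat.exists_eq_add_of_le' hm
    have a3 := gd_chord d m (replicate n (2 * (m + 1))) c1 hj (nef_empty H c1 (c2.trans_eq (by
      push_cast
      ring)))
    rw [Nat.add_sub_cancel] at p
    have a4 := Nat.mul_le_mul_left i p
    refine le_trans (Nat.le_of_lt_succ (Nat.lt_of_mul_lt_mul_left (a := i + j) ?_))
      (Nat.le_add_left (n * (m + 1)) _)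
    rw [Nat.succ_eq_add_one]
    linarith
  · have a1 := nef_empty (m := m) (a := 2 * m + 1) H hk (e1.trans_eq (by
      push_cast
      ring))
    have a2 := gd_raise d k (Nat.le_succ m) (replicate (t - k) m + replicate n (2 * m + 1))
    rw [add_right_comm, ← replicate_add, Nat.sub_add_cancel hk, Nat.choose_succ_succ' (m + 1) 1,
      Nat.choose_one_right, Nat.add_sub_cancel] at a2
    change _ ≤ gd d (_ + replicate k (m + 1)) + _ at a2
    rcases b1 with rfl | b1 <;> omega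

/-- A linear inequality which holds at `m₀`, and beyond `m₀` unless `z = 0`. -/
def Lin (m0 z a b c e : ℕ) : Prop := a * m0 + b < c * m0 + e ∧ (z = 0 ∨ a ≤ c)

instance (m0 z a b c e : ℕ) : Decidable (Lin m0 z a b c e) := by
  unfold Lin
  infer_instance

lemma Lin.real {m0 z a b c e m : ℕ} (h : Lin m0 z a b c e) (h1 : m0 ≤ m) (h2 : z = 0 → m = m0) :
    (a : ℝ) * m + b < c * m + e := by
  rcases h.2 with h3 | h3
  · rw [h2 h3]
    exact_mod_cast h.1
  · obtain ⟨k, rfl⟩ := Nat.exists_eq_add_of_le h1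
    have := Nat.mul_le_mul_right k h3
    have h4 : a * (m0 + k) + b < c * (m0 + k) + e := by linarith [h.1]
    exact_mod_cast h4

/-- The test for a range of values of `d - m √r`. -/
def Box (m0 z q n t L U A B i : ℕ) (W : List (ℕ × ℕ × ℕ)) : Prop :=
  U * B < i * q ^ 2 ∧ i - 2 * n ≤ t ∧
  (i - 2 * n = 0 ∨ Lin m0 z ((2 * (i - 2 * n) + (4 * n + t)) * q ^ 2) (2 * (i - 2 * n) * q ^ 2)
    (L * (2 * A + 3 * q)) ((A + q) * (A + 2 * q) + 2 * q ^ 2)) ∧
  ∃ w ∈ W, w.2.1 ≤ A + 3 * q ∧ w.2.2 ≤ m0 ∧ (w.1 = 0 ∨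
    Lin m0 z (U * (2 * B + 3 * q) + 2 * w.1 * q ^ 2) ((B + q) * (B + 2 * q)) ((4 * n + t) * q ^ 2)
      (2 * q ^ 2) ∨
    i ≤ t ∧ Lin m0 z (i * (U * (2 * B + 3 * q) + 2 * w.1 * q ^ 2))
      (i * ((B + q) * (B + 2 * q) + 2 * w.1 * q ^ 2)) ((i * (4 * n + t) + 2 * w.1 * n) * q ^ 2)
      (2 * (i + w.1) * q ^ 2))

instance (m0 z q n t L U A B i : ℕ) (W : List (ℕ × ℕ × ℕ)) :
    Decidable (Box m0 z q n t L U A B i W) := by
  unfold Box
  infer_instance

theorem Box.sound {m0 z q n t L U A B i m d : ℕ} {W : List (ℕ × ℕ × ℕ)}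
    (h : Box m0 z q n t L U A B i W) (H : NefC n t) (hW : ∀ w ∈ W, Wd q n t w) (hq : 0 < q)
    (hm : 1 ≤ m) (h1 : m0 ≤ m) (h2 : z = 0 → m = m0) (hL : L ≤ q * √((4 * n + t : ℕ) : ℝ))
    (hU : q * √((4 * n + t : ℕ) : ℝ) ≤ U) (hA : A < q * (d - m * √((4 * n + t : ℕ) : ℝ)))
    (hB : q * (d - m * √((4 * n + t : ℕ) : ℝ)) ≤ B) :
    gd d (replicate (4 * n + t) m) ≤ (d + 2).choose 2 - (4 * n + t) * (m + 1).choose 2 := by
  obtain ⟨k1, k2, k3, w, hw, k4, k5, k6⟩ := h
  have hl := Real.mul_self_sqrt (Nat.cast_nonneg (α := ℝ) (4 * n + t))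
  have hl0 := Real.sqrt_nonneg ((4 * n + t : ℕ) : ℝ)
  have p := (hW w hw).2 m d hm (k5.trans h1) (by
    have : (w.2.1 : ℝ) ≤ A + 3 * q := by exact_mod_cast k4
    linarith)
  have hq' : (0 : ℝ) < q ^ 2 := by positivity
  have c1 := cast_choose m
  have c2 := cast_choose (d + 1)
  have hm0 := Nat.cast_nonneg (α := ℝ) m
  have hA0 := Nat.cast_nonneg (α := ℝ) A
  have hq0 := Nat.cast_nonneg (α := ℝ) q
  have hL0 := Nat.cast_nonneg (α := ℝ) L
  set l := √((4 * n + t : ℕ) : ℝ) with hl'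
  obtain ⟨y, hy⟩ : ∃ y : ℝ, d = m * l + y := ⟨d - m * l, by ring⟩
  rw [hy, add_sub_cancel_left] at hA hB
  have e : q ^ 2 * (2 * ((d + 2).choose 2 : ℝ)) = q ^ 2 * ((4 * n + t : ℕ) * m ^ 2) +
      m * (q * l * (2 * (q * y) + 3 * q)) + (q * y + q) * (q * y + 2 * q) := by
    rw [show d + 2 = d + 1 + 1 from rfl, c2, ← hl, Nat.cast_add, hy]
    push_cast
    ring
  have up : q ^ 2 * (2 * ((d + 2).choose 2 : ℝ)) ≤ q ^ 2 * ((4 * n + t : ℕ) * m ^ 2) +
      m * (U * (2 * B + 3 * q)) + (B + q) * (B + 2 * q) := by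
    rw [e]
    have : 0 ≤ q * y := by linarith
    gcongr
  have lo : q ^ 2 * ((4 * n + t : ℕ) * m ^ 2) + m * (L * (2 * A + 3 * q)) + (A + q) * (A + 2 * q) ≤
      q ^ 2 * (2 * ((d + 2).choose 2 : ℝ)) := by
    rw [e]
    have := hA.le
    gcongr
    linarith
  have e1 : (d : ℝ) * l < (4 * n + t : ℕ) * m + i := by
    have a1 : q * l * (q * y) ≤ U * B := by
      have : 0 ≤ q * y := by linarith
      gcongr
    have a2 : (U : ℝ) * B < i * q ^ 2 := by exact_mod_cast k1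
    have a3 : l * y < i := lt_of_mul_lt_mul_right (by linarith) hq'.le
    rw [hy, ← hl]
    linarith
  have c3 : q ^ 2 * (2 * (((4 * n + t) * (m + 1).choose 2 : ℕ) : ℝ)) =
      q ^ 2 * ((4 * n + t : ℕ) * m ^ 2) + (4 * n + t) * q ^ 2 * m := by
    rw [Nat.cast_mul, mul_left_comm 2, c1]
    push_cast
    ring
  refine core (i := i) H hm k2 (hW w hw).1 ?_ (k3.imp_right fun a => ?_) p
    (k6.imp_right fun a => a.imp (fun a => ?_) fun a => ⟨a.1, e1, ?_⟩)
  · have : (i : ℝ) ≤ ((i - 2 * n : ℕ) : ℝ) + 2 * n := by exact_mod_cast le_tsub_add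
    linarith
  · have a1 := a.real h1 h2
    generalize i - 2 * n = k at a1 ⊢
    rw [← Nat.lt_add_one_iff, ← Nat.cast_lt (α := ℝ)]
    refine lt_of_mul_lt_mul_left ?_ (mul_pos two_pos hq').le
    rw [Nat.cast_add]
    generalize (((4 * n + t) * (m + 1).choose 2 : ℕ) : ℝ) = R at c3 ⊢
    push_cast at a1 ⊢
    linarith
  · have a1 := a.real h1 h2
    rw [← Nat.lt_add_one_iff, ← Nat.cast_lt (α := ℝ)]
    refine lt_of_mul_lt_mul_left ?_ (mul_pos two_pos hq').le
    rw [Nat.cast_add (_ * _)]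
    generalize (((4 * n + t) * (m + 1).choose 2 : ℕ) : ℝ) = R at c3 ⊢
    push_cast at a1 ⊢
    linarith
  · have a1 := a.2.real h1 h2
    rw [← Nat.cast_lt (α := ℝ)]
    refine lt_of_mul_lt_mul_left ?_ (mul_pos two_pos hq').le
    have a2 := mul_le_mul_of_nonneg_left up (Nat.cast_nonneg (α := ℝ) i)
    have a3 := congrArg (fun x => (i : ℝ) * x) c3
    generalize (4 * n + t) * (m + 1).choose 2 = R at a3 ⊢
    push_cast at a1 a2 a3 ⊢
    linarith

/-- The whole test for `r = 4 n + t` points. -/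
def Full (n t L : ℕ) (W : List (ℕ × ℕ × ℕ)) : Prop :=
  10 ≤ 4 * n + t ∧ 4 * n + t ≤ 36 ∧ L ^ 2 ≤ (4 * n + t) * 100000 ^ 2 ∧
  (4 * n + t) * 100000 ^ 2 < (L + 1) ^ 2 ∧
  (∀ k < 150, L + 1 ≤ 2000 * k + 300000 ∨ Box 20 1 100000 n t L (L + 1) (2000 * k) (2000 * k + 2000)
    ((L + 1) * (2000 * k + 2000) / 100000 ^ 2 + 1) W) ∧
  ∀ m < 20, ∀ d < 120, m < 2 ∨ d ^ 2 ≤ (4 * n + t) * m ^ 2 ∨ (4 * n + t) * (m + 1) ^ 2 < (d + 3) ^ 2 ∨
    Box m 0 100000 n t L (L + 1) (100000 * d - (L + 1) * m) (100000 * d - L * m)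
      ((L + 1) * (100000 * d - L * m) / 100000 ^ 2 + 1) W

instance (n t L : ℕ) (W : List (ℕ × ℕ × ℕ)) : Decidable (Full n t L W) := by
  unfold Full
  infer_instance

theorem Full.sound {n t L : ℕ} {W : List (ℕ × ℕ × ℕ)} (h : Full n t L W) (H : NefC n t)
    (hW : ∀ w ∈ W, Wd 100000 n t w) (m d : ℕ) : KE (tri (d + 1)) (fun _ : Fin (4 * n + t) => m)
      ((d + 2).choose 2 - (4 * n + t) * (m + 1).choose 2) := by
  obtain ⟨r1, r2, l1, l2, k1, k2⟩ := h
  by_cases h0 : d ^ 2 ≤ (4 * n + t) * m ^ 2 ∨ (4 * n + t) * (m + 1) ^ 2 < (d + 3) ^ 2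
  · exact ke_out r1 h0
  by_cases h1 : m = 1
  · subst h1
    simpa using ke_one (4 * n + t) d
  rcases Nat.eq_zero_or_pos m with rfl | hm
  · simpa using ke_zero (fun _ : Fin (4 * n + t) => 0) d
  refine gd_le_iff.1 ?_
  rw [ms_const]
  have hl := Real.sq_sqrt (Nat.cast_nonneg (α := ℝ) (4 * n + t))
  have hl0 := Real.sqrt_nonneg ((4 * n + t : ℕ) : ℝ)
  have hL : (L : ℝ) ≤ (100000 : ℕ) * √((4 * n + t : ℕ) : ℝ) := by
    refine le_of_pow_le_pow_left₀ two_ne_zero (by positivity) ?_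
    rw [mul_pow, hl, mul_comm]
    exact_mod_cast l1
  have hU : (100000 : ℕ) * √((4 * n + t : ℕ) : ℝ) < (L + 1 : ℕ) := by
    refine lt_of_pow_lt_pow_left₀ 2 (by positivity) ?_
    rw [mul_pow, hl, mul_comm]
    exact_mod_cast l2
  have a1 : m * √((4 * n + t : ℕ) : ℝ) < d := by
    refine lt_of_pow_lt_pow_left₀ 2 (by positivity) ?_
    rw [mul_pow, hl, mul_comm]
    exact_mod_cast not_le.1 (not_or.1 h0).1
  have a2 : (d : ℝ) + 3 ≤ (m + 1) * √((4 * n + t : ℕ) : ℝ) := by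
    refine le_of_pow_le_pow_left₀ two_ne_zero (by positivity) ?_
    rw [mul_pow, hl, mul_comm]
    exact_mod_cast not_lt.1 (not_or.1 h0).2
  have a3 : √((4 * n + t : ℕ) : ℝ) ≤ 6 :=
    Real.sqrt_le_iff.2 ⟨by norm_num, by exact_mod_cast r2⟩
  have hm' : (0 : ℝ) < m := by exact_mod_cast hm
  by_cases h20 : m < 20
  · have b0 : (m : ℝ) + 1 ≤ 20 := by exact_mod_cast h20
    have b1 : d < 120 := by
      have : (d : ℝ) < 120 := by nlinarith
      exact_mod_cast this
    refine (((k2 m h20 d b1).resolve_left (by omega)).resolve_left (not_or.1 h0).1).elim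
      (fun h => absurd h (not_or.1 h0).2) fun h => h.sound H hW (by norm_num) hm le_rfl
        (fun _ => rfl) hL hU.le ?_ ?_
    · have b2 := mul_lt_mul_of_pos_right hU hm'
      rcases le_total (100000 * d) ((L + 1) * m) with b | b
      · rw [Nat.sub_eq_zero_of_le b, Nat.cast_zero, Nat.cast_ofNat]
        linarith
      · rw [Nat.cast_sub b, Nat.cast_mul, Nat.cast_mul]
        linarith
    · have b2 := mul_le_mul_of_nonneg_right hL hm'.le
      have b3 : ((100000 : ℕ) : ℝ) * d ≤ ((100000 * d - L * m : ℕ) : ℝ) + L * m := by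
        exact_mod_cast le_tsub_add
      linarith
  obtain ⟨k, hk⟩ : ∃ k, ⌈50 * (d - m * √((4 * n + t : ℕ) : ℝ))⌉₊ = k + 1 :=
    Nat.exists_eq_succ_of_ne_zero (Nat.ceil_pos.2 (by linarith)).ne'
  have b1 := Nat.le_ceil (50 * (d - m * √((4 * n + t : ℕ) : ℝ)))
  have b2 := Nat.ceil_lt_add_one (show 0 ≤ 50 * (d - m * √((4 * n + t : ℕ) : ℝ)) by linarith)
  rw [hk, Nat.cast_add_one] at b1 b2
  have b3 : k < 150 := by
    have : (k : ℝ) < 150 := by linarith
    exact_mod_cast this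
  refine (k1 k b3).elim (fun h => ?_) fun h => h.sound H hW (by norm_num) hm (not_lt.1 h20)
    (fun h => absurd h one_ne_zero) hL hU.le ?_ ?_
  · have b4 : ((L + 1 : ℕ) : ℝ) ≤ 2000 * k + 300000 := by exact_mod_cast h
    rw [Nat.cast_ofNat] at hU
    linarith
  · rw [Nat.cast_mul, Nat.cast_ofNat, Nat.cast_ofNat]
    linarith
  · rw [Nat.cast_add (2000 * k), Nat.cast_mul, Nat.cast_ofNat, Nat.cast_ofNat]
    linarith

/-- The regions which come from the classes with simple points only. -/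
def wl (n t : ℕ) : List (ℕ × ℕ × ℕ) :=
  [(17, 412311), (16, 400000), (15, 387299), (14, 374166), (13, 360556), (12, 346411), (11, 331663),
    (10, 316228), (9, 300000)].map fun x => (n + t - x.1, x.2, 0)

lemma wd_wl {n t : ℕ} (H : NefC n t) (h1 : n ≤ 9) (h2 : 9 ≤ n + t) : ∀ w ∈ wl n t, Wd 100000 n t w := by
  intro w hw
  obtain ⟨x, hx, rfl⟩ := List.mem_map.1 hw
  simp only [List.mem_cons, List.not_mem_nil, or_false] at hx
  rcases hx with rfl | rfl | rfl | rfl | rfl | rfl | rfl | rfl | rfl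
  all_goals exact wd_nag H (by norm_num) (by omega) (by norm_num) h2 (by norm_num)

lemma table_mid : ∀ x ∈ [(2, 8, 400000), (2, 9, 412310), (2, 10, 424264), (3, 8, 447213),
    (3, 9, 458257), (3, 10, 469041), (3, 11, 479583), (4, 9, 500000), (4, 10, 509901),
    (4, 11, 519615), (4, 12, 529150), (5, 9, 538516), (5, 10, 547722), (5, 11, 556776),
    (5, 12, 565685), (6, 9, 574456), (6, 10, 583095), (6, 11, 591607)],
    Full x.1 x.2.1 x.2.2 (wl x.1 x.2.1) := by
  decide +kernel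

lemma table_crem : Full 3 12 489897 ((0, 383000, 6) :: wl 3 12) := by
  decide +kernel

theorem ke_mid {r : ℕ} (hr : 21 ≤ r) (m d : ℕ) :
    KE (tri (d + 1)) (fun _ : Fin r => m) ((d + 2).choose 2 - r * (m + 1).choose 2) := by
  by_cases h : 36 ≤ r
  · exact ke_big h m d
  have key : ∀ n t L, 3 ≤ n → n ≤ 6 → 9 ≤ t → t ≤ 12 → Full n t L (wl n t) → KE (tri (d + 1))
      (fun _ : Fin (4 * n + t) => m) ((d + 2).choose 2 - (4 * n + t) * (m + 1).choose 2) :=
    fun n t L h1 h2 h3 h4 h5 => by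
      have H : NefC n t := Nef.nef_mid h1 h2 h3 (by omega)
      exact h5.sound H (wd_wl H (by omega) (by omega)) m d
  have T := table_mid
  simp only [List.forall_mem_cons] at T
  obtain ⟨-, -, -, -, t21, t22, t23, t25, t26, t27, t28, t29, t30, t31, t32, t33, t34, t35, -⟩ := T
  rw [not_le] at h
  interval_cases r
  · exact key 3 9 _ (by omega) (by omega) (by omega) (by omega) t21
  · exact key 3 10 _ (by omega) (by omega) (by omega) (by omega) t22
  · exact key 3 11 _ (by omega) (by omega) (by omega) (by omega) t23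
  · have H : NefC 3 12 := Nef.nef_mid le_rfl (by omega) (by omega) (by omega)
    exact table_crem.sound H (List.forall_mem_cons.2 ⟨wd_crem H, wd_wl H (by omega) (by omega)⟩) m d
  · exact key 4 9 _ (by omega) (by omega) (by omega) (by omega) t25
  · exact key 4 10 _ (by omega) (by omega) (by omega) (by omega) t26
  · exact key 4 11 _ (by omega) (by omega) (by omega) (by omega) t27
  · exact key 4 12 _ (by omega) (by omega) (by omega) (by omega) t28
  · exact key 5 9 _ (by omega) (by omega) (by omega) (by omega) t29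
  · exact key 5 10 _ (by omega) (by omega) (by omega) (by omega) t30
  · exact key 5 11 _ (by omega) (by omega) (by omega) (by omega) t31
  · exact key 5 12 _ (by omega) (by omega) (by omega) (by omega) t32
  · exact key 6 9 _ (by omega) (by omega) (by omega) (by omega) t33
  · exact key 6 10 _ (by omega) (by omega) (by omega) (by omega) t34
  · exact key 6 11 _ (by omega) (by omega) (by omega) (by omega) t35

end Pool.Agent.P.MP_8707bd_ag.Col
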