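import Pool.Agent.P.MP_8707bd_ag.Col.Main
import Pool.Agent.P.MP_8707bd_ag.Small.Crem
import Pool.Agent.P.MP_8707bd_ag.Small.Strict

/-!
Convexity at one point, chords and quadratic transformations (helper file only).
-/

namespace Pool.Agent.P.MP_8707bd_ag.Col

open MvPolynomial Module Win All Ex KV

lemma tr_pderiv (q : Fin 2 → ℂ) (a : Fin 2) (G : MvPolynomial (Fin 2) ℂ) :
    tr q (pderiv a G) = pderiv a (tr q G) := by
  induction G using MvPolynomial.induction_on with
  | C c => simp [tr]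
  | add F G hF hG => simp only [map_add, hF, hG]
  | mul_X F k hF =>
    have hk : tr q (X k) = X k + C (q k) := by simp [tr]
    have hk' : tr q (pderiv a (X k)) = pderiv a (X k) := by
      rw [pderiv_X, Pi.single_apply]
      split_ifs <;> simp
    rw [pderiv_mul, map_add, map_mul, map_mul, map_mul, pderiv_mul, hF, hk, hk', map_add,
      pderiv_C, add_zero]

lemma mem_van {q : Fin 2 → ℂ} {n : ℕ} {G : MvPolynomial (Fin 2) ℂ} :
    G ∈ van q n ↔ ∀ s : Fin 2 →₀ ℕ, s.degree < n → (tr q G).coeff s = 0 := van_iff q n G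

lemma van_step (q : Fin 2 → ℂ) (n : ℕ) : van q (n + 1) ≤ van q n := fun _ h =>
  Ideal.pow_le_pow_right (Nat.le_succ n) h

lemma pderiv_van {q : Fin 2 → ℂ} {G : MvPolynomial (Fin 2) ℂ} {n : ℕ}
    (hG : G ∈ van q (n + 1)) (a : Fin 2) : pderiv a G ∈ van q n := by
  rw [mem_van] at hG ⊢
  intro s hs
  rw [tr_pderiv, coeff_pderiv, hG _ (by rw [map_add, Finsupp.degree_single]; omega), zero_mul]

/-- Translation to a moving point. -/
noncomputable def mov (q : Fin 2 → ℂ) (a : Fin 2) :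
    MvPolynomial (Fin 2) ℂ →ₐ[ℂ] MvPolynomial (Fin 2) (Polynomial ℂ) :=
  aeval fun k => X k + C (Polynomial.C (q k) +
    Polynomial.C ((Pi.single a 1 : Fin 2 → ℂ) k) * Polynomial.X)

lemma mov_eval (q : Fin 2 → ℂ) (a : Fin 2) (t : ℂ) (G : MvPolynomial (Fin 2) ℂ)
    (s : Fin 2 →₀ ℕ) : ((mov q a G).coeff s).eval t =
      (tr (q + t • (Pi.single a 1 : Fin 2 → ℂ)) G).coeff s := by
  have : (MvPolynomial.map (Polynomial.evalRingHom t)).comp
      (mov q a : MvPolynomial (Fin 2) ℂ →+* MvPolynomial (Fin 2) (Polynomial ℂ)) =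
      (tr (q + t • (Pi.single a 1 : Fin 2 → ℂ)) :
        MvPolynomial (Fin 2) ℂ →+* MvPolynomial (Fin 2) ℂ) := by
    refine MvPolynomial.ringHom_ext (fun r => ?_) fun k => ?_
    · simp [tr, mov]
    · simp [tr, mov, mul_comm t]
  have h : MvPolynomial.map (Polynomial.evalRingHom t) (mov q a G) =
      tr (q + t • (Pi.single a 1 : Fin 2 → ℂ)) G :=
    congrArg (fun f : MvPolynomial (Fin 2) ℂ →+* MvPolynomial (Fin 2) ℂ => f G) this
  rw [← h, coeff_map]
  rfl

lemma mov_zero (q : Fin 2 → ℂ) (a : Fin 2) (G : MvPolynomial (Fin 2) ℂ)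
    (s : Fin 2 →₀ ℕ) : ((mov q a G).coeff s).coeff 0 = (tr q G).coeff s := by
  rw [Polynomial.coeff_zero_eq_eval_zero, mov_eval, zero_smul, add_zero]

lemma mov_one (q : Fin 2 → ℂ) (a : Fin 2) (G : MvPolynomial (Fin 2) ℂ)
    (s : Fin 2 →₀ ℕ) : ((mov q a G).coeff s).coeff 1 = (tr q (pderiv a G)).coeff s := by
  induction G using MvPolynomial.induction_on generalizing s with
  | C c =>
    have : mov q a (C c) = C (Polynomial.C c) := by simp [mov]
    rw [this, coeff_C]
    split_ifs <;> simp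
  | add F G hF hG => simp only [map_add, MvPolynomial.coeff_add, Polynomial.coeff_add, hF, hG]
  | mul_X F k hF =>
    have hk : tr q (X k) = X k + C (q k) := by simp [tr]
    have hk' : tr q (pderiv a (X k)) = C ((Pi.single a 1 : Fin 2 → ℂ) k) := by
      rw [pderiv_X, Pi.single_apply, Pi.single_apply]
      split_ifs <;> simp
    have hk'' : mov q a (X k) = X k + C (Polynomial.C (q k) +
        Polynomial.C ((Pi.single a 1 : Fin 2 → ℂ) k) * Polynomial.X) := by simp [mov]
    rw [pderiv_mul, map_add, map_mul, map_mul, map_mul, hk, hk', hk'', mul_add, mul_add,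
      mul_comm _ (C _), mul_comm _ (C _), mul_comm _ (C _)]
    simp only [MvPolynomial.coeff_add, coeff_C_mul, coeff_mul_X', Polynomial.coeff_add, add_mul,
      Polynomial.coeff_C_mul, mul_assoc, hF]
    rw [Polynomial.coeff_X_mul, mov_zero, add_assoc]
    congr 1
    split_ifs
    · exact hF _
    · rfl

/-- If a derivative of a member is not a leading form of the larger system, then the dimension
drops when the point moves. -/
theorem key_move {W : Submodule ℂ (MvPolynomial (Fin 2) ℂ)} [Module.Finite ℂ W] {q : Fin 2 → ℂ}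
    {n : ℕ} {G : MvPolynomial (Fin 2) ℂ} (hG : G ∈ W ⊓ van q (n + 1)) {a : Fin 2}
    (ha : ∀ H ∈ W ⊓ van q n, pderiv a G - H ∉ van q (n + 1)) :
    ∃ q' : Fin 2 → ℂ, finrank ℂ ↥(W ⊓ van q' (n + 1)) < finrank ℂ ↥(W ⊓ van q (n + 1)) := by
  obtain ⟨U, hU⟩ := Submodule.exists_isCompl ((W ⊓ van q (n + 1)).comap W.subtype)
  let Φ : (Fin 2 →₀ ℕ) → MvPolynomial (Fin 2) ℂ →ₗ[ℂ] Polynomial ℂ := fun s =>
    (lcoeff (Polynomial ℂ) s).restrictScalars ℂ ∘ₗ (mov q a).toLinearMap
  have hΦ : ∀ s u, Φ s u = (mov q a u).coeff s := fun _ _ => rfl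
  let Ψ : {s : Fin 2 →₀ ℕ // s.degree < n + 1} → U × ℂ →ₗ[ℂ] Polynomial ℂ := fun s =>
    (Φ s.1 ∘ₗ W.subtype ∘ₗ U.subtype).coprod (LinearMap.toSpanSingleton ℂ _ (Φ s.1 G).divX)
  have hΨ : ∀ s x, Ψ s x = Φ s.1 x.1.1.1 + x.2 • (Φ s.1 G).divX := fun _ _ => rfl
  have h0 : ∀ x : U × ℂ, (∀ s, (Ψ s x).eval 0 = 0) → x = 0 := by
    rintro ⟨u, c⟩ hx
    have h1 : u.1.1 + c • pderiv a G ∈ van q (n + 1) := by
      rw [mem_van]
      intro s hs
      have := hx ⟨s, hs⟩
      rw [hΨ, ← Polynomial.coeff_zero_eq_eval_zero, Polynomial.coeff_add, Polynomial.coeff_smul,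
        Polynomial.coeff_divX, hΦ, hΦ, mov_zero, zero_add, mov_one] at this
      rw [map_add, map_smul, MvPolynomial.coeff_add, coeff_smul]
      exact this
    have h2 : u.1.1 ∈ van q n := by
      simpa using sub_mem (van_step q n h1) (Submodule.smul_mem _ c (pderiv_van hG.2 a))
    have h6 : c = 0 := by
      by_contra hc
      refine ha (-(c⁻¹ • u.1.1)) (neg_mem (Submodule.smul_mem _ _ ⟨u.1.2, h2⟩)) ?_
      have := Submodule.smul_mem _ c⁻¹ h1
      rwa [smul_add, inv_smul_smul₀ hc, add_comm (c⁻¹ • _), ← sub_neg_eq_add] at this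
    rw [h6, zero_smul, add_zero] at h1
    have h5 : u.1 = 0 := Submodule.disjoint_def.1 hU.disjoint u.1 ⟨u.1.2, h1⟩ u.2
    rw [h6, (Subtype.ext h5 : u = 0)]
    rfl
  obtain ⟨t, ht, hle⟩ := Small.semi_strict (U := U × ℂ) Ψ h0
  refine ⟨q + t • (Pi.single a 1 : Fin 2 → ℂ), ?_⟩
  set V' := W ⊓ van (q + t • (Pi.single a 1 : Fin 2 → ℂ)) (n + 1) with hV'
  have hfin : Module.Finite ℂ V' := Submodule.finiteDimensional_of_le inf_le_left
  let L : V' × (U × ℂ) →ₗ[ℂ] W := (Submodule.inclusion inf_le_left).coprod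
    (U.subtype.coprod (LinearMap.toSpanSingleton ℂ _ ⟨G, hG.1⟩))
  have hL : Function.Injective L := by
    rw [injective_iff_map_eq_zero]
    rintro ⟨v, u, c⟩ hx
    have h1 : v.1 + (u.1.1 + c • G) = 0 := congrArg Subtype.val hx
    have h2 : u.1.1 + c • G ∈ van (q + t • (Pi.single a 1 : Fin 2 → ℂ)) (n + 1) := by
      rw [eq_neg_of_add_eq_zero_right h1]
      exact neg_mem v.2.2
    have h3 : (u, c * t) = 0 := by
      refine hle _ fun s => ?_
      have h4 := mem_van.1 h2 s.1 s.2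
      rw [map_add, map_smul, MvPolynomial.coeff_add, coeff_smul, ← mov_eval, ← mov_eval,
        ← hΦ, ← hΦ, ← Polynomial.divX_mul_X_add (Φ s.1 G), hΦ s.1 G, mov_zero,
        mem_van.1 hG.2 s.1 s.2] at h4
      rw [hΨ, hΦ s.1 G]
      simp only [map_zero, add_zero, Polynomial.eval_mul, Polynomial.eval_X, smul_eq_mul,
        Polynomial.eval_add, Polynomial.eval_smul] at h4 ⊢
      linear_combination h4
    rw [Prod.mk_eq_zero] at h3
    have h5 : c = 0 := (mul_eq_zero.1 h3.2).resolve_right ht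
    rw [h3.1, h5] at h1
    have h6 : v = 0 := Subtype.ext (by simpa using h1)
    rw [h6, h3.1, h5]
    rfl
  have e1 := LinearMap.finrank_le_finrank_of_injective hL
  have e2 := Submodule.finrank_add_eq_of_isCompl hU
  rw [(Submodule.comapSubtypeEquivOfLe inf_le_left).finrank_eq] at e2
  have e3 : finrank ℂ V' + (finrank ℂ U + 1) ≤ finrank ℂ W := (Small.rank_strict V' U).ge.trans e1
  omega

lemma rank_split {M N : Type} [AddCommGroup M] [Module ℂ M] [AddCommGroup N] [Module ℂ N]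
    (φ : M →ₗ[ℂ] N) (V : Submodule ℂ M) [Module.Finite ℂ V] :
    finrank ℂ (V.map φ) + finrank ℂ ↥(V ⊓ LinearMap.ker φ) = finrank ℂ V := by
  rw [← (φ.domRestrict V).finrank_range_add_finrank_ker, LinearMap.range_domRestrict,
    LinearMap.ker_domRestrict, ← Submodule.finrank_map_subtype_eq V, Submodule.map_comap_subtype]

theorem count_one {W : Submodule ℂ (MvPolynomial (Fin 2) ℂ)} [Module.Finite ℂ W] {q : Fin 2 → ℂ}
    {n : ℕ} (h : ∀ G ∈ W ⊓ van q (n + 1), ∃ H ∈ W ⊓ van q n, pderiv 0 G - H ∈ van q (n + 1)) :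
    2 * finrank ℂ ↥(W ⊓ van q (n + 1)) ≤
      finrank ℂ ↥(W ⊓ van q n) + finrank ℂ ↥(W ⊓ van q (n + 2)) + 1 := by
  have f : ∀ V, Module.Finite ℂ ↥(W ⊓ V) := fun _ => Submodule.finiteDimensional_of_le inf_le_left
  have h0 := rank_split (van q (n + 1)).mkQ (W ⊓ van q n)
  rw [Submodule.ker_mkQ, inf_assoc, inf_eq_right.2 (van_step q n)] at h0
  let φ := (van q (n + 1)).mkQ ∘ₗ (pderiv (R := ℂ) (0 : Fin 2)).toLinearMap
  have h1 := rank_split φ (W ⊓ van q (n + 1))
  have h2 : (W ⊓ van q (n + 1)).map φ ≤ (W ⊓ van q n).map (van q (n + 1)).mkQ := by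
    rintro _ ⟨G, hG, rfl⟩
    obtain ⟨H, h1, h2⟩ := h G hG
    exact ⟨H, h1, ((Submodule.Quotient.eq _).2 h2).symm⟩
  have h3 := Submodule.finrank_mono h2
  let ψ := lcoeff ℂ (Finsupp.single (1 : Fin 2) (n + 1)) ∘ₗ (tr q).toLinearMap
  rw [inf_assoc] at h1
  have h4 := rank_split ψ (W ⊓ (van q (n + 1) ⊓ LinearMap.ker φ))
  have h5 := Submodule.finrank_le ((W ⊓ (van q (n + 1) ⊓ LinearMap.ker φ)).map ψ)
  rw [finrank_self] at h5
  have h6 : W ⊓ (van q (n + 1) ⊓ LinearMap.ker φ) ⊓ LinearMap.ker ψ ≤ W ⊓ van q (n + 2) := by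
    rintro G ⟨⟨k1, k2, k3⟩, k4⟩
    refine ⟨k1, mem_van.2 fun s hs => ?_⟩
    by_cases k5 : s.degree < n + 1
    · exact mem_van.1 k2 s k5
    by_cases k6 : s 0 = 0
    · have : s = Finsupp.single 1 (n + 1) := by
        rw [deg_two] at hs k5
        ext a
        fin_cases a
        · simpa using k6
        · simp only [Fin.mk_one, Finsupp.single_eq_same]
          omega
      rw [this]
      exact k4
    have k7 : pderiv 0 G ∈ van q (n + 1) := (Submodule.Quotient.mk_eq_zero _).1 k3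
    have e : s = (s - Finsupp.single 0 1) + Finsupp.single 0 1 :=
      (tsub_add_cancel_of_le (Finsupp.single_le_iff.2 (Nat.one_le_iff_ne_zero.2 k6))).symm
    have k8 := mem_van.1 k7 (s - Finsupp.single 0 1) (by
      have := congrArg Finsupp.degree e
      rw [map_add, Finsupp.degree_single] at this
      omega)
    rw [tr_pderiv, coeff_pderiv, ← e] at k8
    exact (mul_eq_zero.1 k8).resolve_right (Nat.cast_add_one_ne_zero _)
  have h7 := Submodule.finrank_mono h6
  omega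

lemma sys_one {ι : Type} (Ω : Set (Fin 2 →₀ ℕ)) (P : ι ⊕ Fin 1 → Fin 2 → ℂ) (μ : ι → ℕ) (a : ℕ) :
    sys Ω P (Sum.elim μ fun _ => a) =
      sys Ω (fun i => P (Sum.inl i)) μ ⊓ van (P (Sum.inr 0)) a := by
  ext F
  rw [Submodule.mem_inf, mem_sys, mem_sys, Sum.forall, and_assoc, Fin.forall_fin_one]
  rfl

open Multiset hiding map_add

/-- Convexity in the multiplicity at one point, up to one. -/
theorem gd_one (d a : ℕ) (s : Multiset ℕ) : 2 * gd d (s + replicate 1 (a + 1)) ≤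
    gd d (s + replicate 1 a) + gd d (s + replicate 1 (a + 2)) + 1 := by
  have e : ∀ a, ms (Sum.elim (fun x : s.ToType => x.1) fun _ : Fin 1 => a) = s + replicate 1 a :=
    fun a => by rw [ms_sum, ms_self, ms_const]
  obtain ⟨Φ₁, p1, g1⟩ := gen (tri_finite _) (gd_ke (d := d) (e a))
  obtain ⟨Φ₂, p2, g2⟩ := gen (tri_finite _) (gd_ke (d := d) (e (a + 1)))
  obtain ⟨Φ₃, p3, g3⟩ := gen (tri_finite _) (gd_ke (d := d) (e (a + 2)))
  obtain ⟨P, hP⟩ := exists_pt _ (mul_ne_zero (mul_ne_zero p1 p2) p3)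
  rw [map_mul, map_mul, mul_ne_zero_iff, mul_ne_zero_iff] at hP
  have h1 := g1 P hP.1.1
  have h2 := g2 P hP.1.2
  have h3 := g3 P hP.2
  have h4 := gd_le_rank (d := d) (e (a + 1))
  have h5 := h4 P
  rw [sys_one] at h1 h2 h3 h5
  have := sys_fin (tri_finite (d + 1)) (fun i => P (Sum.inl i)) fun x : s.ToType => x.1
  have h6 := count_one (W := sys (tri (d + 1)) (fun i => P (Sum.inl i)) fun x : s.ToType => x.1)
    (q := P (Sum.inr 0)) (n := a) fun G hG => by
      by_contra hc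
      push Not at hc
      obtain ⟨q', hq⟩ := key_move hG hc
      have h7 := h4 (Sum.elim (fun i => P (Sum.inl i)) fun _ => q')
      rw [sys_one] at h7
      exact absurd (h2.trans h7) (not_le.2 hq)
  omega

lemma convex_ge (f : ℕ → ℤ) (n : ℕ) (h : ∀ j, j + 2 ≤ n → 2 * f (j + 1) ≤ f j + f (j + 2)) :
    ∀ j ≤ n, j * (f 1 - f 0) ≤ f j - f 0 := by
  have key : ∀ j, j + 1 ≤ n → f 1 - f 0 ≤ f (j + 1) - f j := by
    intro j
    induction j with
    | zero => exact fun _ => le_rfl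
    | succ j ih =>
      intro hj
      have h1 := ih (by omega)
      have h2 := h j hj
      rw [show j + 1 + 1 = j + 2 from rfl]
      omega
  intro j
  induction j with
  | zero => simp
  | succ j ih =>
    intro hj
    have h1 := ih (by omega)
    have h2 := key j hj
    push_cast
    linarith

lemma gd_chain (d a b T : ℕ) (h : ∀ s : Multiset ℕ,
    2 * gd d (s + {b, a}) ≤ gd d (s + {a, a}) + gd d (s + {b, b})) (u : Multiset ℕ) {k : ℕ}
    (hk : k ≤ T + 1) : k * ((gd d (replicate T a + u + replicate 1 b) : ℤ) -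
      gd d (replicate (T + 1) a + u)) ≤
      gd d (replicate (T + 1 - k) a + u + replicate k b) - gd d (replicate (T + 1) a + u) := by
  have := convex_ge (fun k => gd d (replicate (T + 1 - k) a + u + replicate k b)) (T + 1)
    (fun j hj => ?_) k hk
  · simpa using this
  obtain ⟨c, hc⟩ := Nat.exists_eq_add_of_le hj
  have h2 := h (replicate c a + u + replicate j b)
  have e0 : replicate c a + u + replicate j b + {a, a} =
      replicate (T + 1 - j) a + u + replicate j b := by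
    rw [show T + 1 - j = c + 2 by omega, replicate_add,
      show ({a, a} : Multiset ℕ) = replicate 2 a from rfl]
    abel
  have e1 : replicate c a + u + replicate j b + {b, a} =
      replicate (T + 1 - (j + 1)) a + u + replicate (j + 1) b := by
    rw [show T + 1 - (j + 1) = c + 1 by omega, replicate_add, replicate_add,
      show ({b, a} : Multiset ℕ) = replicate 1 b + replicate 1 a from rfl]
    abel
  have e2 : replicate c a + u + replicate j b + {b, b} =
      replicate (T + 1 - (j + 2)) a + u + replicate (j + 2) b := by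
    rw [show T + 1 - (j + 2) = c by omega, replicate_add,
      show ({b, b} : Multiset ℕ) = replicate 2 b from rfl]
    abel
  rw [e0, e1, e2] at h2
  exact_mod_cast h2

/-- The chord between a configuration with lowered points and one with raised points. -/
theorem gd_chord (d m : ℕ) (u : Multiset ℕ) {t i j : ℕ} (hi : i ≤ t) (hj : j ≤ t)
    (h : gd d (replicate (t - i) (m + 1) + u + replicate i (m + 2)) ≤ 0) :
    (i + j) * gd d (replicate t (m + 1) + u) ≤
      i * (gd d (replicate (t - j) (m + 1) + u + replicate j m) + j) := by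
  rcases t with _ | T
  · rw [Nat.le_zero.1 hi, Nat.le_zero.1 hj]
    simp
  have h1 := gd_chain d (m + 1) (m + 2) T (fun s => by
    have := gd_submod d (m + 1) (m + 1) s
    rw [pair_comm (m + 1) (m + 1 + 1)] at this
    change gd d (s + {m + 2, m + 1}) + gd d (s + {m + 2, m + 1}) ≤ _ + gd d (s + {m + 2, m + 2})
      at this
    omega) u hi
  have h2 := gd_chain d (m + 1) m T (fun s => by
    have := gd_submod d m m s
    rw [pair_comm (m + 1) m] at this
    omega) u hj
  have h3 := gd_one d m (replicate T (m + 1) + u)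
  rw [add_right_comm, ← replicate_add] at h3
  rw [Nat.le_zero.1 h] at h1
  have h4 := mul_le_mul_of_nonneg_left h1 (Nat.cast_nonneg (α := ℤ) j)
  have h5 := mul_le_mul_of_nonneg_left h2 (Nat.cast_nonneg (α := ℤ) i)
  have h6 := mul_le_mul_of_nonneg_left ((Nat.cast_le (α := ℤ)).2 h3)
    (Nat.cast_nonneg (α := ℤ) (i * j))
  have h7 : ((i : ℤ) + j) * gd d (replicate (T + 1) (m + 1) + u) ≤
      i * (gd d (replicate (T + 1 - j) (m + 1) + u + replicate j m) + j) := by
    push_cast at h4 h5 h6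
    linarith
  exact_mod_cast h7

lemma gd_hh {r : ℕ} (d : ℕ) (μ : Fin r → ℕ) : gd d (ms μ) = Small.hh (Small.cl d μ) :=
  le_antisymm (gd_le_iff.2 (Small.ke_of_hh_le le_rfl)) (Small.hh_le_of_ke (gd_ke rfl))

lemma ms_cons {k : ℕ} (a : ℕ) (ν : Fin k → ℕ) : ms (Fin.cons a ν : Fin (k + 1) → ℕ) = a ::ₘ ms ν := by
  rw [ms, ms, Fin.univ_val_map, Fin.univ_val_map, List.ofFn_succ]
  rfl

/-- The quadratic transformation. -/
theorem gd_crem (d a b c : ℕ) (s : Multiset ℕ) : gd d (a ::ₘ b ::ₘ c ::ₘ s) ≤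
    gd (2 * d - (a + b + c)) ((d - (b + c)) ::ₘ (d - (a + c)) ::ₘ (d - (a + b)) ::ₘ s) := by
  obtain ⟨k, ν, rfl⟩ : ∃ (k : ℕ) (ν : Fin k → ℕ), ms ν = s := by
    induction s using Quotient.inductionOn with
    | h l => exact ⟨l.length, l.get, by rw [ms, Fin.univ_val_map, List.ofFn_get]; rfl⟩
  simp only [← ms_cons, gd_hh]
  have n1 : (0 : Fin (k + 1 + 1 + 1)) ≠ Fin.succ 0 := (Fin.succ_ne_zero _).symm
  have n2 : (0 : Fin (k + 1 + 1 + 1)) ≠ Fin.succ (Fin.succ 0) := (Fin.succ_ne_zero _).symm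
  have n3 : (Fin.succ 0 : Fin (k + 1 + 1 + 1)) ≠ Fin.succ (Fin.succ 0) := fun h =>
    Fin.succ_ne_zero _ (Fin.succ_injective _ h).symm
  have hT : ({0, Fin.succ 0, Fin.succ (Fin.succ 0)} : Finset (Fin (k + 1 + 1 + 1))).card = 3 :=
    Finset.card_eq_three.2 ⟨_, _, _, n1, n2, n3, rfl⟩
  rw [← Small.hh_refl hT]
  have e : ∑ i ∈ ({0, Fin.succ 0, Fin.succ (Fin.succ 0)} : Finset (Fin (k + 1 + 1 + 1))),
      (Small.cl d (Fin.cons a (Fin.cons b (Fin.cons c ν)))).2 i = a + b + c := by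
    rw [Finset.sum_insert (by simp only [Finset.mem_insert, Finset.mem_singleton]; tauto),
      Finset.sum_pair n3, add_assoc (a : ℤ)]
    rfl
  by_cases h : 2 * d < a + b + c
  · rw [Small.hh_of_neg]
    · exact Nat.zero_le _
    · rw [Small.refl, e]
      change (d : ℤ) + (d - _) < 0
      omega
  refine Small.hh_mono ?_ fun i => ?_
  · rw [Small.refl, e]
    change (d : ℤ) + (d - _) = ((2 * d - (a + b + c) : ℕ) : ℤ)
    omega
  rw [Small.refl, e]
  refine Fin.cases ?_ (fun i => Fin.cases ?_ (fun i => Fin.cases ?_ (fun i => ?_) i) i) i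
  · dsimp only
    rw [if_pos (by simp)]
    change ((d - (b + c) : ℕ) : ℤ).toNat ≤ ((a : ℤ) + (d - _)).toNat
    omega
  · dsimp only
    rw [if_pos (by simp)]
    change ((d - (a + c) : ℕ) : ℤ).toNat ≤ ((b : ℤ) + (d - _)).toNat
    omega
  · dsimp only
    rw [if_pos (by simp)]
    change ((d - (a + b) : ℕ) : ℤ).toNat ≤ ((c : ℤ) + (d - _)).toNat
    omega
  · dsimp only
    rw [if_neg (by
      simp only [Finset.mem_insert, Finset.mem_singleton, Fin.succ_inj, Fin.succ_ne_zero, or_self,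
        not_false_eq_true]), add_zero]
    rfl

/-- Emptiness from the class with simple points only. -/
theorem gd_nag {ι : Type} [Fintype ι] (h9 : 9 ≤ Fintype.card ι) {d : ℕ} {μ : ι → ℕ}
    (h : (d : ℝ) * √(Fintype.card ι) < ∑ i, (μ i : ℝ)) : gd d (ms μ) ≤ 0 := by
  let e := (Fintype.equivFin ι).symm
  have h1 := nefC_zero h9 d (Sum.elim (fun i => μ (e i)) Fin.elim0) (by
    rw [show ((4 * Fintype.card ι + 0 : ℕ) : ℝ) = 2 ^ 2 * Fintype.card ι by push_cast; ring,
      Real.sqrt_mul (by norm_num), Real.sqrt_sq (by norm_num)]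
    have := e.sum_comp fun j => (μ j : ℝ)
    simp only [Sum.elim_inl, Finset.univ_eq_empty, Finset.sum_empty, this]
    linarith)
  refine gd_le ?_ h1
  rw [ms_sum, ms, ms, ms, ← Finset.univ_map_equiv_to_embedding e, Finset.map_val, Multiset.map_map]
  simp

/-- The image of the class with simple points under a quadratic transformation. -/
theorem amp_crem {κ : Type} [Fintype κ] (h6 : 6 ≤ Fintype.card κ) :
    AMP (genF (Fin 3 ⊕ κ)) (2 * √((3 + Fintype.card κ : ℕ) : ℝ) - 3)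
      (Sum.elim (fun _ => √((3 + Fintype.card κ : ℕ) : ℝ) - 2) fun _ => 1) := by
  have h2 : √((3 + Fintype.card κ : ℕ) : ℝ) ^ 2 = 3 + Fintype.card κ := by
    rw [Real.sq_sqrt (Nat.cast_nonneg _)]
    push_cast
    rfl
  have h3 : 3 ≤ √((3 + Fintype.card κ : ℕ) : ℝ) :=
    Real.le_sqrt_of_sq_le (by exact_mod_cast (by omega : 3 ^ 2 ≤ 3 + Fintype.card κ))
  have h4 := fun (d : ℕ) (μ : Fin 3 ⊕ κ → ℕ) => gd_nag (ι := Fin 3 ⊕ κ) (d := d) (μ := μ)
    (by simp only [Fintype.card_sum, Fintype.card_fin]; omega)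
  rw [Fintype.card_sum, Fintype.card_fin] at h4
  generalize √((3 + Fintype.card κ : ℕ) : ℝ) = σ at h2 h3 h4
  refine amp_of_emp (by linarith) (by rintro (i | i) <;> simp; linarith) (by simp; nlinarith)
    fun k e he => genF_emp (gd_le_iff.1 ?_)
  have h5 := Nat.le_ceil (k * (σ - 2))
  have e1 : (fun i : Fin 3 ⊕ κ => ⌈(k : ℝ) * Sum.elim (fun _ => σ - 2) (fun _ => 1) i⌉₊) =
      Sum.elim (fun _ => ⌈k * (σ - 2)⌉₊) fun _ => k := by
    funext i
    rcases i with i | i <;> simp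
  rw [e1]
  generalize ⌈k * (σ - 2)⌉₊ = a at h5
  have e2 : ∀ a, ms (Sum.elim (fun _ => a) fun _ => k : Fin 3 ⊕ κ → ℕ) =
      a ::ₘ a ::ₘ a ::ₘ ms fun _ : κ => k := fun a => by
    rw [ms_sum, ms_const]
    simp [replicate_succ]
  rw [e2]
  refine (gd_crem _ _ _ _ _).trans ?_
  rw [← e2]
  refine h4 _ _ ?_
  simp only [Fintype.sum_sum_type, Sum.elim_inl, Sum.elim_inr, Finset.sum_const, Finset.card_univ,
    Fintype.card_fin, nsmul_eq_mul, Nat.cast_ofNat]
  have k0 : (0 : ℝ) < k := by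
    rcases Nat.eq_zero_or_pos k with rfl | h
    · rw [Nat.cast_zero, zero_mul] at he
      exact absurd he (not_lt.2 (Nat.cast_nonneg e))
    · exact_mod_cast h
  have k1 : (e : ℝ) - (a + a) ≤ ((e - (a + a) : ℕ) : ℝ) := by
    have : (e : ℝ) ≤ ((e - (a + a) : ℕ) : ℝ) + (a + a) := by exact_mod_cast le_tsub_add
    linarith
  have k2 := Nat.cast_nonneg (α := ℝ) (e - (a + a))
  rw [show (Fintype.card κ : ℝ) = σ ^ 2 - 3 by linarith]
  rcases le_total (2 * e) (a + a + a) with h | h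
  · rw [Nat.sub_eq_zero_of_le h, Nat.cast_zero, zero_mul]
    have := mul_pos (show 0 < σ ^ 2 - 3 by nlinarith) k0
    linarith
  · rw [Nat.cast_sub h]
    push_cast
    have a1 := mul_lt_mul_of_pos_right he (show 0 < 2 * σ - 3 by linarith)
    have a2 := mul_le_mul_of_nonneg_right h5 (show 0 ≤ σ - 2 by linarith)
    linarith

end Pool.Agent.P.MP_8707bd_ag.Col
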