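import Pool.Agent.P.MP_8707bd_ag.Col.Local
import Pool.Agent.P.MP_8707bd_ag.Ex.Lower

/-!
The generic dimension as a function of the multiset of multiplicities (helper file only).
-/

namespace Pool.Agent.P.MP_8707bd_ag.Col

open MvPolynomial Module Win All Ex Multiset

/-- The multiset of multiplicities. -/
def ms {ι : Type} [Fintype ι] (μ : ι → ℕ) : Multiset ℕ := Finset.univ.val.map μ

variable {ι κ : Type} [Fintype ι] [Fintype κ]

lemma ms_equiv {μ : ι → ℕ} {ν : κ → ℕ} (h : ms μ = ms ν) : ∃ f : κ ≃ ι, ∀ a, ν a = μ (f a) := by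
  classical
  have key : ∀ c, Fintype.card {a // ν a = c} = Fintype.card {a // μ a = c} := fun c => by
    have := congrArg (count c) h
    rw [ms, ms, count_map, count_map] at this
    rw [Fintype.card_subtype, Fintype.card_subtype]
    simp only [eq_comm (b := c)]
    exact this.symm
  exact ⟨Equiv.ofFiberEquiv fun c => Fintype.equivOfCardEq (key c), fun a =>
    (Equiv.ofFiberEquiv_map _ a).symm⟩

lemma ms_sum (μ : ι → ℕ) (ν : κ → ℕ) : ms (Sum.elim μ ν) = ms μ + ms ν := by
  rw [ms, ← Finset.univ_disjSum_univ, Finset.val_disjSum, map_disjSum]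
  rfl

lemma ms_const (k a : ℕ) : ms (fun _ : Fin k => a) = replicate k a := by
  simp [ms]

lemma ms_self (s : Multiset ℕ) : ms (fun x : s.ToType => x.1) = s := map_univ_coe s

lemma ms_pair (a b : ℕ) : ms ![a, b] = {a, b} := by
  rw [ms, Fin.univ_val_map]
  rfl

/-- The generic dimension of the system of curves of degree `d` with the multiplicities `s`. -/
noncomputable def gd (d : ℕ) (s : Multiset ℕ) : ℕ :=
  sInf {e | KE (tri (d + 1)) (fun x : s.ToType => x.1) e}

lemma gd_le_iff {d e : ℕ} {μ : ι → ℕ} : gd d (ms μ) ≤ e ↔ KE (tri (d + 1)) μ e := by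
  constructor
  · intro h
    obtain ⟨f, hf⟩ := ms_equiv (ms_self (ms μ))
    have : gd d (ms μ) ∈ {e | KE (tri (d + 1)) (fun x : (ms μ).ToType => x.1) e} :=
      Nat.sInf_mem ⟨_, ke_of_rank (tri_finite _) (fun _ => 0) _ _ le_rfl⟩
    exact (KE.more this h).reindex f μ hf
  · intro h
    obtain ⟨f, hf⟩ := ms_equiv (ms_self (ms μ)).symm
    exact Nat.sInf_le (h.reindex f _ hf)

lemma gd_ke {d : ℕ} {μ : ι → ℕ} {s : Multiset ℕ} (h : ms μ = s) :
    KE (tri (d + 1)) μ (gd d s) := gd_le_iff.1 (h ▸ le_rfl)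

lemma gd_le {d e : ℕ} {μ : ι → ℕ} {s : Multiset ℕ} (h : ms μ = s) (h' : KE (tri (d + 1)) μ e) :
    gd d s ≤ e := h ▸ gd_le_iff.2 h'

lemma gd_le_rank {d : ℕ} {μ : ι → ℕ} {s : Multiset ℕ} (h : ms μ = s) (P : ι → Fin 2 → ℂ) :
    gd d s ≤ finrank ℂ (sys (tri (d + 1)) P μ) :=
  gd_le h (ke_of_rank (tri_finite _) P μ _ le_rfl)

lemma two_gen {d a b : ℕ} {μ ν : ι → ℕ} (h1 : KE (tri (d + 1)) μ a) (h2 : KE (tri (d + 1)) ν b) :
    ∃ P : ι → Fin 2 → ℂ, finrank ℂ (sys (tri (d + 1)) P μ) ≤ a ∧
      finrank ℂ (sys (tri (d + 1)) P ν) ≤ b := by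
  obtain ⟨Φ₁, p1, g1⟩ := gen (tri_finite _) h1
  obtain ⟨Φ₂, p2, g2⟩ := gen (tri_finite _) h2
  obtain ⟨P, hP⟩ := exists_pt _ (mul_ne_zero p1 p2)
  rw [map_mul, mul_ne_zero_iff] at hP
  exact ⟨P, g1 P hP.1, g2 P hP.2⟩

omit [Fintype ι] [Fintype κ] in
lemma rank_sum (Ω : Set (Fin 2 →₀ ℕ)) (P : ι ⊕ κ → Fin 2 → ℂ) (μ : ι → ℕ) (ν : κ → ℕ) :
    finrank ℂ (sys Ω P (Sum.elim μ ν)) = finrank ℂ ↥(⨅ k, (van (P (Sum.inr k)) (ν k)).comap
      (sys Ω (fun i => P (Sum.inl i)) μ).subtype) := by
  rw [← Submodule.comap_iInf, ← Submodule.finrank_map_subtype_eq, Submodule.map_comap_subtype]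
  congr 2
  all_goals
    ext F
    rw [Submodule.mem_inf, mem_sys, mem_sys, Submodule.mem_iInf, Sum.forall, and_assoc]
    rfl

theorem gd_collide (d m : ℕ) (s : Multiset ℕ) : gd d (s + replicate 4 m) ≤
    max (gd d (s + replicate 1 (2 * m)) - m) (gd d (s + replicate 1 (2 * m + 1))) := by
  have e : ∀ k a, ms (Sum.elim (fun x : s.ToType => x.1) fun _ : Fin k => a) = s + replicate k a :=
    fun k a => by rw [ms_sum, ms_self, ms_const]
  obtain ⟨P, h1, h2⟩ := two_gen (d := d) (gd_ke (e 1 (2 * m))) (gd_ke (e 1 (2 * m + 1)))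
  rw [rank_sum, iInf_unique] at h1 h2
  have := sys_fin (tri_finite (d + 1)) (fun i => P (Sum.inl i)) fun x : s.ToType => x.1
  obtain ⟨Q, hQ⟩ := local_collide
    (sys (tri (d + 1)) (fun i => P (Sum.inl i)) fun x : s.ToType => x.1).subtype
    (P (Sum.inr default)) m
  have h3 := gd_le_rank (d := d) (e 4 m) (Sum.elim (fun i => P (Sum.inl i)) Q)
  rw [rank_sum] at h3
  have h4 := h3.trans hQ
  omega

theorem gd_submod (d a b : ℕ) (s : Multiset ℕ) : gd d (s + {a + 1, b}) + gd d (s + {a, b + 1}) ≤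
    gd d (s + {a, b}) + gd d (s + {a + 1, b + 1}) := by
  have e : ∀ a b, ms (Sum.elim (fun x : s.ToType => x.1) ![a, b]) = s + {a, b} :=
    fun a b => by rw [ms_sum, ms_self, ms_pair]
  obtain ⟨P, h1, h2⟩ := two_gen (d := d) (gd_ke (e a b)) (gd_ke (e (a + 1) (b + 1)))
  have h3 := gd_le_rank (d := d) (e (a + 1) b) P
  have h4 := gd_le_rank (d := d) (e a (b + 1)) P
  have f := fun μ => sys_fin (tri_finite (d + 1)) P μ
  have h5 := Submodule.finrank_sup_add_finrank_inf_eq
    (sys (tri (d + 1)) P (Sum.elim (fun x : s.ToType => x.1) ![a + 1, b]))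
    (sys (tri (d + 1)) P (Sum.elim (fun x : s.ToType => x.1) ![a, b + 1]))
  have h6 : sys (tri (d + 1)) P (Sum.elim (fun x : s.ToType => x.1) ![a + 1, b]) ⊔
      sys (tri (d + 1)) P (Sum.elim (fun x : s.ToType => x.1) ![a, b + 1]) ≤
      sys (tri (d + 1)) P (Sum.elim (fun x : s.ToType => x.1) ![a, b]) := by
    refine sup_le (fun F hF => ?_) fun F hF => ?_
    all_goals
      obtain ⟨k1, k2⟩ := mem_sys.1 hF
      refine mem_sys.2 ⟨k1, fun i => Ideal.pow_le_pow_right ?_ (k2 i)⟩
      rcases i with i | i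
      · exact le_rfl
      · fin_cases i <;> simp
  have h7 : sys (tri (d + 1)) P (Sum.elim (fun x : s.ToType => x.1) ![a + 1, b]) ⊓
      sys (tri (d + 1)) P (Sum.elim (fun x : s.ToType => x.1) ![a, b + 1]) ≤
      sys (tri (d + 1)) P (Sum.elim (fun x : s.ToType => x.1) ![a + 1, b + 1]) := by
    rintro F ⟨hF, hG⟩
    obtain ⟨k1, k2⟩ := mem_sys.1 hF
    obtain ⟨-, k3⟩ := mem_sys.1 hG
    refine mem_sys.2 ⟨k1, fun i => ?_⟩
    rcases i with i | i
    · exact k2 (Sum.inl i)
    · fin_cases i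
      · exact k2 (Sum.inr 0)
      · exact k3 (Sum.inr 1)
  have h8 := Submodule.finrank_mono h6
  have h9 := Submodule.finrank_mono h7
  omega

theorem gd_raise (d k : ℕ) {a b : ℕ} (h : a ≤ b) (s : Multiset ℕ) : gd d (s + replicate k a) ≤
    gd d (s + replicate k b) + k * ((b + 1).choose 2 - (a + 1).choose 2) := by
  have e : ∀ a, ms (Sum.elim (fun x : s.ToType => x.1) fun _ : Fin k => a) = s + replicate k a :=
    fun a => by rw [ms_sum, ms_self, ms_const]
  have := ke_lower_up (tri_finite (d + 1)) (gd_ke (e b))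
    (μ' := Sum.elim (fun x : s.ToType => x.1) fun _ : Fin k => a) (by
      rintro (i | i)
      · exact le_rfl
      · exact h)
  rw [Fintype.sum_sum_type] at this
  simpa using gd_le (e a) this

theorem gd_lower (d k : ℕ) {a b : ℕ} (h : a ≤ b) (s : Multiset ℕ) :
    gd d (s + replicate k b) ≤ gd d (s + replicate k a) := by
  have e : ∀ a, ms (Sum.elim (fun x : s.ToType => x.1) fun _ : Fin k => a) = s + replicate k a :=
    fun a => by rw [ms_sum, ms_self, ms_const]
  obtain ⟨P, Q, h1⟩ := gd_ke (d := d) (e a)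
  refine gd_le (e b) ⟨P, Q, fun F k1 k2 => h1 F k1 fun i => Ideal.pow_le_pow_right ?_ (k2 i)⟩
  rcases i with i | i
  · exact le_rfl
  · exact h

theorem gd_add (d : ℕ) (s u : Multiset ℕ) : gd d (s + u) ≤ gd d s := by
  obtain ⟨P, Q, h1⟩ := gd_ke (d := d) (ms_self s)
  exact gd_le (μ := Sum.elim (fun x : s.ToType => x.1) fun x : u.ToType => x.1)
    (by rw [ms_sum, ms_self, ms_self])
    ⟨Sum.elim P fun _ => 0, Q, fun F k1 k2 => h1 F k1 fun i => k2 (Sum.inl i)⟩

theorem gd_deg {d d' : ℕ} (h : d ≤ d') (s : Multiset ℕ) : gd d s ≤ gd d' s :=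
  gd_le (ms_self s) ((gd_ke (d := d') (ms_self s)).mono fun u hu => by
    have : u 0 + u 1 < d + 1 := hu
    change u 0 + u 1 < d' + 1
    omega)

theorem gd_succ (d : ℕ) (s : Multiset ℕ) : gd (d + 1) s ≤ gd d s + (d + 2) := by
  have := gd_le (ms_self s) (ke_tri_up (gd_ke (d := d) (ms_self s)) (Nat.le_succ (d + 1)))
  rwa [Nat.choose_succ_succ' (d + 1 + 1) 1, Nat.choose_one_right, Nat.add_sub_cancel] at this

lemma convex_le (f : ℕ → ℤ) (n : ℕ) (h : ∀ j, j + 2 ≤ n → 2 * f (j + 1) ≤ f j + f (j + 2))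
    (h0 : f 0 ≤ 0) (hn : f n ≤ 0) : ∀ j ≤ n, f j ≤ 0 := by
  intro j
  induction j with
  | zero => exact fun _ => h0
  | succ j ih =>
    intro hj
    have h1 := ih (by omega)
    by_contra h2
    have key : ∀ k, j + k + 1 ≤ n → f (j + k) < f (j + k + 1) ∧ 0 < f (j + k + 1) := by
      intro k
      induction k with
      | zero => exact fun _ => by rw [add_zero]; omega
      | succ k ih =>
        intro hk
        have h3 := ih (by omega)
        have h4 := h (j + k) (by omega)
        rw [← add_assoc, show j + k + 1 + 1 = j + k + 2 from rfl]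
        omega
    have := (key (n - (j + 1)) (by omega)).2
    rw [show j + (n - (j + 1)) + 1 = n by omega] at this
    omega

lemma gd_unroll (d m : ℕ) : ∀ (n B : ℕ) (u : Multiset ℕ), (∀ j i, j + i = n →
    gd d (u + replicate j (2 * m + 1) + replicate i (2 * m)) ≤ B + i * m) →
    gd d (u + replicate (4 * n) m) ≤ B := by
  intro n
  induction n with
  | zero => exact fun B u h => by simpa using h 0 0 rfl
  | succ n ih =>
    intro B u h
    rw [show 4 * (n + 1) = 4 * n + 4 by ring, replicate_add, ← add_assoc]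
    refine (gd_collide d m _).trans (max_le ?_ ?_)
    · rw [add_right_comm]
      have := ih (B + m) (u + replicate 1 (2 * m)) fun j i hji => by
        have := h j (i + 1) (by omega)
        rw [replicate_add, ← add_assoc, add_right_comm _ _ (replicate 1 _),
          add_right_comm _ _ (replicate 1 _), add_mul, one_mul] at this
        omega
      omega
    · rw [add_right_comm]
      refine ih B (u + replicate 1 (2 * m + 1)) fun j i hji => ?_
      have := h (j + 1) i (by omega)
      rwa [replicate_add, ← add_assoc, add_right_comm _ _ (replicate 1 _)] at this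

/-- Collision of `n` groups of four points. -/
theorem gd_middle (d m n B : ℕ) (u : Multiset ℕ) (h0 : gd d (u + replicate n (2 * m)) ≤ B + n * m)
    (h1 : gd d (u + replicate n (2 * m + 1)) ≤ B) : gd d (u + replicate (4 * n) m) ≤ B := by
  refine gd_unroll d m n B u fun j i hji => ?_
  have := convex_le (fun j => (gd d (u + replicate j (2 * m + 1) + replicate (n - j) (2 * m)) : ℤ) -
    B - (n - j) * m) n (fun j hj => ?_) (by simpa [sub_sub] using (by exact_mod_cast h0))
    (by simpa using h1) j (by omega)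
  · rw [show n - j = i by omega, ← hji] at this
    push_cast at this
    have h2 : (gd d (u + replicate j (2 * m + 1) + replicate i (2 * m)) : ℤ) ≤ B + i * m := by
      linarith
    exact_mod_cast h2
  · obtain ⟨k, rfl⟩ := Nat.exists_eq_add_of_le hj
    have h2 := gd_submod d (2 * m) (2 * m) (u + replicate j (2 * m + 1) + replicate k (2 * m))
    have e0 : u + replicate j (2 * m + 1) + replicate k (2 * m) + {2 * m, 2 * m} =
        u + replicate j (2 * m + 1) + replicate (j + 2 + k - j) (2 * m) := by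
      rw [show j + 2 + k - j = k + 2 by omega, replicate_add, ← add_assoc]
      rfl
    have e1 : u + replicate j (2 * m + 1) + replicate k (2 * m) + {2 * m + 1, 2 * m} =
        u + replicate (j + 1) (2 * m + 1) + replicate (j + 2 + k - (j + 1)) (2 * m) := by
      rw [show j + 2 + k - (j + 1) = k + 1 by omega, replicate_add, replicate_add,
        show ({2 * m + 1, 2 * m} : Multiset ℕ) = replicate 1 (2 * m + 1) + replicate 1 (2 * m)
        from rfl]
      abel
    have e2 : u + replicate j (2 * m + 1) + replicate k (2 * m) + {2 * m + 1, 2 * m + 1} =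
        u + replicate (j + 2) (2 * m + 1) + replicate (j + 2 + k - (j + 2)) (2 * m) := by
      rw [show j + 2 + k - (j + 2) = k by omega, replicate_add, add_right_comm, ← add_assoc]
      rfl
    rw [pair_comm (2 * m) (2 * m + 1), e0, e1, e2] at h2
    push_cast
    linarith [(Nat.cast_le (α := ℤ)).2 h2, Nat.cast_add (R := ℤ)
      (gd d (u + replicate (j + 1) (2 * m + 1) + replicate (j + 2 + k - (j + 1)) (2 * m)))
      (gd d (u + replicate (j + 1) (2 * m + 1) + replicate (j + 2 + k - (j + 1)) (2 * m))),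
      Nat.cast_add (R := ℤ)
      (gd d (u + replicate j (2 * m + 1) + replicate (j + 2 + k - j) (2 * m)))
      (gd d (u + replicate (j + 2) (2 * m + 1) + replicate (j + 2 + k - (j + 2)) (2 * m)))]

end Pool.Agent.P.MP_8707bd_ag.Col
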