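import Pool.Agent.P.MP_8707bd_ag.Ex.Trans
import Pool.Agent.P.MP_8707bd_ag.Ex.Semi

/-!
Collision of four points of the same multiplicity (helper file only).
-/

namespace Pool.Agent.P.MP_8707bd_ag.Col

open MvPolynomial Module Win All Ex

lemma lin_mem' {V : Type} [AddCommGroup V] [Module ℂ V] (f : MvPolynomial (Fin 2) ℂ →ₗ[ℂ] V)
    (N : Submodule ℂ V) {A : MvPolynomial (Fin 2) ℂ}
    (h : ∀ s ∈ A.support, f (monomial s 1) ∈ N) : f A ∈ N := by
  rw [A.as_sum, map_sum]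
  refine Submodule.sum_mem _ fun s hs => ?_
  have : (monomial s (coeff s A) : MvPolynomial (Fin 2) ℂ) = coeff s A • monomial s 1 := by
    rw [smul_monomial, smul_eq_mul, mul_one]
  rw [this, map_smul]
  exact Submodule.smul_mem _ _ (h s hs)

lemma mono_two {A : Type} [CommRing A] (s : Fin 2 →₀ ℕ) :
    (monomial s 1 : MvPolynomial (Fin 2) A) = X 0 ^ s 0 * X 1 ^ s 1 := by
  rw [monomial_eq, Finsupp.prod_fintype _ _ (by simp), Fin.prod_univ_two, map_one, one_mul]

lemma pull {φ : Fin 2 → MvPolynomial (Fin 2) ℂ} {q Q : Fin 2 → ℂ}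
    (h : ∀ k, Q k = eval q (φ k)) {n : ℕ} {F : MvPolynomial (Fin 2) ℂ}
    (hF : F ∈ van Q n) : aeval φ F ∈ van q n := by
  refine pow_map_mem (aeval φ : MvPolynomial (Fin 2) ℂ →ₐ[ℂ] MvPolynomial (Fin 2) ℂ).toRingHom
    _ _ (fun a ha => ?_) n F hF
  have : (eval q).comp (aeval φ : MvPolynomial (Fin 2) ℂ →ₐ[ℂ] MvPolynomial (Fin 2) ℂ).toRingHom =
      eval Q := by
    refine MvPolynomial.ringHom_ext (fun r => ?_) fun k => ?_
    · simp
    · simp [h]
  rw [RingHom.mem_ker] at ha ⊢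
  rw [← this] at ha
  exact ha

/-- The span of the monomials of the `m`-th power of the ideal of the squares. -/
def Esq (m : ℕ) : Submodule ℂ (MvPolynomial (Fin 2) ℂ) where
  carrier := {f | ∀ s : Fin 2 →₀ ℕ, s 0 / 2 + s 1 / 2 < m → coeff s f = 0}
  add_mem' := fun ha hb s hs => by rw [coeff_add, ha s hs, hb s hs, add_zero]
  zero_mem' := fun s _ => rfl
  smul_mem' := fun c x hx s hs => by rw [coeff_smul, hx s hs, smul_zero]

lemma sq_mul_mem {m : ℕ} {f : MvPolynomial (Fin 2) ℂ} (hf : f ∈ Esq m) (k : Fin 2) :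
    X k ^ 2 * f ∈ Esq (m + 1) := by
  intro s hs
  rw [X_pow_eq_monomial, coeff_monomial_mul']
  split_ifs with h
  · rw [hf _ ?_, mul_zero]
    have h1 : 2 ≤ s k := by simpa using h k
    fin_cases k
    · simp only [Finsupp.coe_tsub, Pi.sub_apply, Fin.zero_eta, Finsupp.single_eq_same,
        Finsupp.single_eq_of_ne (show (1 : Fin 2) ≠ 0 by decide)] at h1 ⊢
      omega
    · simp only [Finsupp.coe_tsub, Pi.sub_apply, Fin.mk_one, Finsupp.single_eq_same,
        Finsupp.single_eq_of_ne (show (0 : Fin 2) ≠ 1 by decide)] at h1 ⊢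
      omega
  · rfl

/-- The squares of the variables are shifted by `τ`. -/
noncomputable def sg {A : Type} [CommRing A] [Algebra ℂ A] (τ : A) :
    MvPolynomial (Fin 2) ℂ →ₗ[ℂ] MvPolynomial (Fin 2) A :=
  (basisMonomials (Fin 2) ℂ).constr ℂ fun s =>
    (X 0 ^ 2 + C τ) ^ (s 0 / 2) * X 0 ^ (s 0 % 2) * ((X 1 ^ 2 + C τ) ^ (s 1 / 2) * X 1 ^ (s 1 % 2))

lemma sg_mono {A : Type} [CommRing A] [Algebra ℂ A] (τ : A) (s : Fin 2 →₀ ℕ) :
    sg τ (monomial s 1) = (X 0 ^ 2 + C τ) ^ (s 0 / 2) * X 0 ^ (s 0 % 2) *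
      ((X 1 ^ 2 + C τ) ^ (s 1 / 2) * X 1 ^ (s 1 % 2)) := by
  have := (basisMonomials (Fin 2) ℂ).constr_basis ℂ (fun s : Fin 2 →₀ ℕ =>
    ((X 0 ^ 2 + C τ) ^ (s 0 / 2) * X 0 ^ (s 0 % 2) *
      ((X 1 ^ 2 + C τ) ^ (s 1 / 2) * X 1 ^ (s 1 % 2)) : MvPolynomial (Fin 2) A)) s
  rwa [coe_basisMonomials] at this

lemma lin_ext' {V : Type} [AddCommGroup V] [Module ℂ V] {f g : MvPolynomial (Fin 2) ℂ →ₗ[ℂ] V}
    (h : ∀ s, f (monomial s 1) = g (monomial s 1)) (A : MvPolynomial (Fin 2) ℂ) : f A = g A := by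
  have := lin_mem' (f - g) ⊥ (A := A) fun s _ => by
    rw [LinearMap.sub_apply, h, sub_self]; exact zero_mem _
  rwa [Submodule.mem_bot, LinearMap.sub_apply, sub_eq_zero] at this

lemma sg_zero (f : MvPolynomial (Fin 2) ℂ) : sg (0 : ℂ) f = f := by
  refine lin_ext' (g := LinearMap.id) (fun s => ?_) f
  rw [sg_mono, LinearMap.id_apply, mono_two, map_zero, add_zero, add_zero, ← pow_mul, ← pow_mul,
    ← pow_add, ← pow_add, Nat.div_add_mod, Nat.div_add_mod]

lemma sg_sp (t : ℂ) (f : MvPolynomial (Fin 2) ℂ) :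
    sp t (sg (Polynomial.X : Polynomial ℂ) f) = sg t f := by
  refine lin_ext' (f := sp t ∘ₗ sg (Polynomial.X : Polynomial ℂ)) (fun s => ?_) f
  rw [LinearMap.comp_apply, sg_mono, sg_mono]
  simp [sp]

lemma sg_mul (t : ℂ) (k : Fin 2) (f : MvPolynomial (Fin 2) ℂ) :
    sg t ((X k ^ 2 - C t) * f) = X k ^ 2 * sg t f := by
  suffices h : (sg t ∘ₗ LinearMap.mulLeft ℂ (X k ^ 2 - C t)) f =
      (LinearMap.mulLeft ℂ (X k ^ 2 : MvPolynomial (Fin 2) ℂ) ∘ₗ sg t) f by
    simpa only [LinearMap.comp_apply, LinearMap.mulLeft_apply] using h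
  refine lin_ext' (fun s => ?_) f
  simp only [LinearMap.comp_apply, LinearMap.mulLeft_apply]
  rw [sub_mul, map_sub, ← smul_eq_C_mul, map_smul, X_pow_eq_monomial, monomial_mul, one_mul,
    sg_mono, sg_mono, smul_eq_C_mul, ← X_pow_eq_monomial]
  fin_cases k
  · simp only [Fin.zero_eta, Finsupp.coe_add, Pi.add_apply, Finsupp.single_eq_same,
      Finsupp.single_eq_of_ne (show (1 : Fin 2) ≠ 0 by decide), zero_add]
    rw [show (2 + s 0) / 2 = s 0 / 2 + 1 by omega, show (2 + s 0) % 2 = s 0 % 2 by omega]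
    ring
  · simp only [Fin.mk_one, Finsupp.coe_add, Pi.add_apply, Finsupp.single_eq_same,
      Finsupp.single_eq_of_ne (show (0 : Fin 2) ≠ 1 by decide), zero_add]
    rw [show (2 + s 1) / 2 = s 1 / 2 + 1 by omega, show (2 + s 1) % 2 = s 1 % 2 by omega]
    ring

lemma sg_pow (t : ℂ) (m : ℕ) : ∀ f ∈ (Ideal.span {X 0 ^ 2 - C t, X 1 ^ 2 - C t} :
    Ideal (MvPolynomial (Fin 2) ℂ)) ^ m, sg t f ∈ Esq m := by
  induction m with
  | zero => exact fun f _ s hs => absurd hs (Nat.not_lt_zero _)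
  | succ m ih =>
    intro f hf
    rw [pow_succ'] at hf
    refine Submodule.mul_induction_on hf (fun a ha g hg => ?_) fun x y hx hy => ?_
    · obtain ⟨α, β, rfl⟩ := Ideal.mem_span_pair.1 ha
      rw [show (α * (X 0 ^ 2 - C t) + β * (X 1 ^ 2 - C t)) * g =
        (X 0 ^ 2 - C t) * (α * g) + (X 1 ^ 2 - C t) * (β * g) by ring, map_add, sg_mul, sg_mul]
      exact add_mem (sq_mul_mem (ih _ (Ideal.mul_mem_left _ _ hg)) 0)
        (sq_mul_mem (ih _ (Ideal.mul_mem_left _ _ hg)) 1)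
    · rw [map_add]; exact add_mem hx hy

lemma ker_pair (p : Fin 2 → ℂ) {f : MvPolynomial (Fin 2) ℂ} (hf : f ∈ RingHom.ker (eval p)) :
    ∃ α β, α * (X 0 - C (p 0)) + β * (X 1 - C (p 1)) = f := by
  rw [← Ideal.mem_span_pair]
  have key : ∀ g : MvPolynomial (Fin 2) ℂ, g - C (eval p g) ∈
      (Ideal.span {X 0 - C (p 0), X 1 - C (p 1)} : Ideal (MvPolynomial (Fin 2) ℂ)) := by
    intro g
    induction g using MvPolynomial.induction_on with
    | C a => simp
    | add a b ha hb =>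
      rw [map_add, map_add, add_sub_add_comm]
      exact add_mem ha hb
    | mul_X a k ha =>
      have hk : (X k - C (p k) : MvPolynomial (Fin 2) ℂ) ∈
          (Ideal.span {X 0 - C (p 0), X 1 - C (p 1)} : Ideal (MvPolynomial (Fin 2) ℂ)) := by
        refine Ideal.subset_span ?_
        fin_cases k
        · exact Or.inl rfl
        · exact Or.inr rfl
      rw [map_mul, eval_X, map_mul, show a * X k - C (eval p a) * C (p k) =
        (a - C (eval p a)) * X k + C (eval p a) * (X k - C (p k)) by ring]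
      exact add_mem (Ideal.mul_mem_right _ _ ha) (Ideal.mul_mem_left _ _ hk)
  have := key f
  rwa [show eval p f = 0 from hf, map_zero, sub_zero] at this

lemma ker_coprime {p q : Fin 2 → ℂ} {k : Fin 2} (h : p k ≠ q k) :
    IsCoprime (RingHom.ker (eval p : MvPolynomial (Fin 2) ℂ →+* ℂ)) (RingHom.ker (eval q)) := by
  rw [Ideal.isCoprime_iff_exists]
  have h1 : q k - p k ≠ 0 := sub_ne_zero.2 h.symm
  refine ⟨C (q k - p k)⁻¹ * (X k - C (p k)), ?_, C (q k - p k)⁻¹ * (C (q k) - X k), ?_, ?_⟩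
  · simp [RingHom.mem_ker]
  · simp [RingHom.mem_ker]
  · rw [← mul_add, show (X k - C (p k) + (C (q k) - X k) : MvPolynomial (Fin 2) ℂ) =
      C (q k - p k) by rw [map_sub]; ring, ← map_mul, inv_mul_cancel₀ h1, map_one]

/-- The four points. -/
def four (e : ℂ) : Fin 4 → Fin 2 → ℂ := ![![e, e], ![e, -e], ![-e, e], ![-e, -e]]

lemma four_mem {e : ℂ} (he : e ≠ 0) {m : ℕ} {f : MvPolynomial (Fin 2) ℂ}
    (h : ∀ i, f ∈ van (four e i) m) :
    f ∈ (Ideal.span {X 0 ^ 2 - C (e ^ 2), X 1 ^ 2 - C (e ^ 2)} :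
      Ideal (MvPolynomial (Fin 2) ℂ)) ^ m := by
  have hne : e ≠ -e := fun h => he (by linear_combination (1 / 2 : ℂ) * h)
  set I : Fin 4 → Ideal (MvPolynomial (Fin 2) ℂ) := fun i => RingHom.ker (eval (four e i)) with hI
  have c01 : IsCoprime (I 0) (I 1) := ker_coprime (k := 1) hne
  have c02 : IsCoprime (I 0) (I 2) := ker_coprime (k := 0) hne
  have c03 : IsCoprime (I 0) (I 3) := ker_coprime (k := 0) hne
  have c12 : IsCoprime (I 1) (I 2) := ker_coprime (k := 0) hne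
  have c13 : IsCoprime (I 1) (I 3) := ker_coprime (k := 0) hne
  have c23 : IsCoprime (I 2) (I 3) := ker_coprime (k := 1) hne
  have h1 : f ∈ (I 0 * I 1) ^ m := by
    rw [mul_pow, Ideal.mul_eq_inf_of_isCoprime c01.pow]
    exact ⟨h 0, h 1⟩
  have h2 : f ∈ (I 2 * I 3) ^ m := by
    rw [mul_pow, Ideal.mul_eq_inf_of_isCoprime c23.pow]
    exact ⟨h 2, h 3⟩
  have h3 : f ∈ (I 0 * I 1 * (I 2 * I 3)) ^ m := by
    rw [mul_pow, Ideal.mul_eq_inf_of_isCoprime
      ((c02.mul_right c03).mul_left (c12.mul_right c13)).pow]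
    exact ⟨h1, h2⟩
  refine Ideal.pow_right_mono ?_ m h3
  have a1 : ∀ (x : ℂ), RingHom.ker (eval ![x, e]) * RingHom.ker (eval ![x, -e]) ≤
      (Ideal.span {X 0 - C x, X 1 ^ 2 - C (e ^ 2)} : Ideal (MvPolynomial (Fin 2) ℂ)) := by
    intro x
    refine Ideal.mul_le.2 fun a ha b hb => ?_
    obtain ⟨α, β, rfl⟩ := ker_pair _ ha
    obtain ⟨γ, δ, rfl⟩ := ker_pair _ hb
    simp only [Matrix.cons_val_zero, Matrix.cons_val_one, map_neg, map_pow]
    exact Ideal.mem_span_pair.2 ⟨α * γ * (X 0 - C x) + α * δ * (X 1 + C e) + β * γ * (X 1 - C e),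
      β * δ, by ring⟩
  refine (Ideal.mul_mono (a1 e) (a1 (-e))).trans (Ideal.mul_le.2 fun a ha b hb => ?_)
  obtain ⟨α, β, rfl⟩ := Ideal.mem_span_pair.1 ha
  obtain ⟨γ, δ, rfl⟩ := Ideal.mem_span_pair.1 hb
  simp only [map_neg, map_pow]
  exact Ideal.mem_span_pair.2 ⟨α * γ, α * δ * (X 0 - C e) + β * γ * (X 0 + C e) +
    β * δ * (X 1 ^ 2 - C e ^ 2), by ring⟩

/-- The limit of four points of multiplicity `m`. -/
lemma collide_sq {U : Type} [AddCommGroup U] [Module ℂ U] [FiniteDimensional ℂ U]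
    (θ : U →ₗ[ℂ] MvPolynomial (Fin 2) ℂ) (m : ℕ) : ∃ e : ℂ,
      finrank ℂ ↥(⨅ i, (van (four e i) m).comap θ) ≤ finrank ℂ ((Esq m).comap θ) := by
  let Φ : {s : Fin 2 →₀ ℕ // s 0 / 2 + s 1 / 2 < m} → U →ₗ[ℂ] Polynomial ℂ := fun s =>
    (lcoeff (Polynomial ℂ) s.1).restrictScalars ℂ ∘ₗ sg (Polynomial.X : Polynomial ℂ) ∘ₗ θ
  have hΦ : ∀ t u, u ∈ Semi.zs Φ t ↔ sg t (θ u) ∈ Esq m := fun t u => by
    rw [Semi.mem_zs, ← sg_sp]
    have : ∀ s, (Φ s u).eval t = coeff s.1 (sp t (sg (Polynomial.X : Polynomial ℂ) (θ u))) :=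
      fun s => by simp [Φ, sp, coeff_map, Polynomial.coe_aeval_eq_eval]
    simp only [this]
    exact ⟨fun h s hs => h ⟨s, hs⟩, fun h s => h s.1 s.2⟩
  obtain ⟨t, ht, h⟩ := Semi.semi_zs Φ
  obtain ⟨e, rfl⟩ := IsAlgClosed.exists_pow_nat_eq t two_pos
  refine ⟨e, (Submodule.finrank_mono fun u hu => ?_).trans
    (h.trans (Submodule.finrank_mono fun u hu => ?_))⟩
  · rw [Submodule.mem_iInf] at hu
    exact (hΦ _ u).2 (sg_pow _ m _ (four_mem (fun h0 => ht (by rw [h0]; ring)) hu))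
  · have := (hΦ 0 u).1 hu
    rwa [sg_zero] at this

/-- Homogeneous components as polynomials in one variable. -/
noncomputable def rho : MvPolynomial (Fin 2) ℂ →ₐ[ℂ] Polynomial (Polynomial ℂ) :=
  aeval ![Polynomial.C Polynomial.X * Polynomial.X, Polynomial.X]

/-- The form of degree `k` as a polynomial in one variable. -/
noncomputable def tau (k : ℕ) : MvPolynomial (Fin 2) ℂ →ₗ[ℂ] Polynomial ℂ :=
  (Polynomial.lcoeff (Polynomial ℂ) k).restrictScalars ℂ ∘ₗ rho.toLinearMap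

lemma tau_apply (k : ℕ) (f : MvPolynomial (Fin 2) ℂ) : tau k f = (rho f).coeff k := rfl

lemma tau_mono (k : ℕ) (s : Fin 2 →₀ ℕ) :
    tau k (monomial s 1) = if k = s 0 + s 1 then Polynomial.X ^ s 0 else 0 := by
  rw [tau_apply, mono_two, map_mul, map_pow, map_pow, rho, aeval_X, aeval_X]
  simp only [Matrix.cons_val_zero, Matrix.cons_val_one]
  rw [mul_pow, mul_assoc, ← pow_add, ← map_pow, Polynomial.coeff_C_mul, Polynomial.coeff_X_pow]
  split_ifs <;> simp

lemma tau_coeff (s : Fin 2 →₀ ℕ) (f : MvPolynomial (Fin 2) ℂ) :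
    (tau (s 0 + s 1) f).coeff (s 0) = coeff s f := by
  suffices h : (Polynomial.lcoeff ℂ (s 0) ∘ₗ tau (s 0 + s 1)) f = lcoeff ℂ s f from h
  refine lin_ext' (fun u => ?_) f
  rw [LinearMap.comp_apply, tau_mono, Polynomial.lcoeff_apply, lcoeff_apply, coeff_monomial]
  by_cases h : u = s
  · rw [h, if_pos rfl, if_pos rfl, Polynomial.coeff_X_pow_self]
  · rw [if_neg h]
    split_ifs with h1
    · rw [Polynomial.coeff_X_pow, if_neg]
      intro h2
      refine h (Finsupp.ext fun i => ?_)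
      fin_cases i
      · exact h2.symm
      · change u 1 = s 1
        omega
    · rfl

lemma deg_two (s : Fin 2 →₀ ℕ) : s.degree = s 0 + s 1 := by
  rw [Finsupp.degree_eq_sum, Fin.sum_univ_two]

lemma van_zero {n : ℕ} {f : MvPolynomial (Fin 2) ℂ} :
    f ∈ van 0 n ↔ ∀ s : Fin 2 →₀ ℕ, s 0 + s 1 < n → coeff s f = 0 := by
  rw [mem_van, van_iff, tr_zero]
  simp only [deg_two]

lemma van_tr {p : Fin 2 → ℂ} {n : ℕ} {f : MvPolynomial (Fin 2) ℂ} :
    tr p f ∈ van 0 n ↔ f ∈ van p n := by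
  rw [mem_van, mem_van, van_iff, van_iff, tr_zero]

lemma van_succ {n : ℕ} {f : MvPolynomial (Fin 2) ℂ} (h : f ∈ van 0 n) (h' : tau n f = 0) :
    f ∈ van 0 (n + 1) := by
  rw [van_zero] at h ⊢
  intro s hs
  by_cases h1 : s 0 + s 1 < n
  · exact h s h1
  · rw [← tau_coeff, show s 0 + s 1 = n by omega, h', Polynomial.coeff_zero]

/-- Forms in the squares of two linear forms. -/
noncomputable def Bsq (a b : ℂ) (m : ℕ) : Submodule ℂ (Polynomial ℂ) :=
  Submodule.span ℂ {g | ∃ i j, i + j = m ∧ g = ((Polynomial.X - Polynomial.C a) ^ 2) ^ i *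
    ((Polynomial.X - Polynomial.C b) ^ 2) ^ j}

lemma esq_sub (a b : ℂ) {m : ℕ} {g : MvPolynomial (Fin 2) ℂ} (hg : g ∈ Esq m) :
    aeval ![X 0 - C a * X 1, X 0 - C b * X 1] g ∈
      van 0 (2 * m) ⊓ (Bsq a b m).comap (tau (2 * m)) := by
  refine lin_mem' (aeval ![X 0 - C a * X 1, X 0 - C b * X 1] :
    MvPolynomial (Fin 2) ℂ →ₐ[ℂ] MvPolynomial (Fin 2) ℂ).toLinearMap _ fun s hs => ?_
  have h1 : m ≤ s 0 / 2 + s 1 / 2 := not_lt.1 fun h => mem_support_iff.1 hs (hg s h)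
  have h2 : ∀ k, tau k (aeval ![X 0 - C a * X 1, X 0 - C b * X 1]
      (monomial s 1 : MvPolynomial (Fin 2) ℂ)) =
      if k = s 0 + s 1 then (Polynomial.X - Polynomial.C a) ^ s 0 *
        (Polynomial.X - Polynomial.C b) ^ s 1 else 0 := by
    intro k
    have e : ∀ c : ℂ, rho (X 0 - C c * X 1) =
        Polynomial.C (Polynomial.X - Polynomial.C c) * Polynomial.X := fun c => by
      simp only [rho, map_sub, map_mul, aeval_X, aeval_C, Matrix.cons_val_zero,
        Matrix.cons_val_one, Polynomial.algebraMap_apply, Algebra.algebraMap_self,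
        RingHom.id_apply]
      ring
    rw [tau_apply, mono_two, map_mul, map_pow, map_pow, aeval_X, aeval_X]
    simp only [Matrix.cons_val_zero, Matrix.cons_val_one]
    rw [map_mul, map_pow, map_pow, e, e, mul_pow, mul_pow, mul_mul_mul_comm, ← pow_add,
      ← map_pow, ← map_pow, ← map_mul, Polynomial.coeff_C_mul, Polynomial.coeff_X_pow]
    split_ifs <;> simp
  refine ⟨van_zero.2 fun u hu => ?_, ?_⟩
  · rw [← tau_coeff]
    change (tau _ (aeval _ _)).coeff _ = 0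
    rw [h2, if_neg (by omega), Polynomial.coeff_zero]
  · change tau _ (aeval _ _) ∈ Bsq a b m
    rw [h2]
    split_ifs with h3
    · refine Submodule.subset_span ⟨s 0 / 2, s 1 / 2, by omega, ?_⟩
      rw [← pow_mul, ← pow_mul, show 2 * (s 0 / 2) = s 0 by omega,
        show 2 * (s 1 / 2) = s 1 by omega]
    · exact zero_mem _

/-- Transversality to the forms in the squares of two general linear forms. -/
lemma bsq_rank (A : Submodule ℂ (Polynomial ℂ)) [FiniteDimensional ℂ A] (m : ℕ) :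
    ∃ a b : ℂ, a ≠ b ∧ finrank ℂ ↥(A ⊓ Bsq a b m) ≤ finrank ℂ A - m := by
  obtain ⟨a, ha⟩ := (wronski A).exists_notMem
  let v : Fin (m + 1) → Polynomial (Polynomial ℂ) := fun i =>
    ((Polynomial.X - Polynomial.C (Polynomial.C a)) ^ 2) ^ (i : ℕ) *
      (2 * (Polynomial.X - Polynomial.C (Polynomial.C a)) + Polynomial.C Polynomial.X) ^ (m - i)
  let w : ℂ → Fin (m + 1) → Polynomial ℂ := fun t i =>
    ((Polynomial.X - Polynomial.C a) ^ 2) ^ (i : ℕ) *
      (2 * (Polynomial.X - Polynomial.C a) + Polynomial.C t) ^ (m - i)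
  let P : A × (Fin (m + 1) → ℂ) →ₗ[ℂ] Polynomial (Polynomial ℂ) :=
    ((Polynomial.mapAlgHom (Algebra.ofId ℂ (Polynomial ℂ))).toLinearMap ∘ₗ A.subtype).coprod
      (-Fintype.linearCombination ℂ v)
  let Φ : ℕ → A × (Fin (m + 1) → ℂ) →ₗ[ℂ] Polynomial ℂ := fun k =>
    (Polynomial.lcoeff (Polynomial ℂ) k).restrictScalars ℂ ∘ₗ P
  have hP : ∀ t u, (P u).map (Polynomial.evalRingHom t) = u.1.1 - ∑ i, u.2 i • w t i := by
    intro t u
    have e1 : P u = u.1.1.map Polynomial.C - ∑ i, u.2 i • v i := by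
      simp [P, Fintype.linearCombination_apply, sub_eq_add_neg]
    rw [e1, Polynomial.map_sub, Polynomial.map_map, Polynomial.map_sum]
    congr 1
    · have : (Polynomial.evalRingHom t).comp Polynomial.C = RingHom.id ℂ := by
        ext; simp
      rw [this, Polynomial.map_id]
    · refine Finset.sum_congr rfl fun i _ => ?_
      rw [← algebraMap_smul (Polynomial ℂ), Polynomial.map_smul]
      simp [v, w]
  have hΦ : ∀ t u, u ∈ Semi.zs Φ t ↔ u.1.1 = ∑ i, u.2 i • w t i := by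
    intro t u
    rw [Semi.mem_zs, ← sub_eq_zero, ← hP, Polynomial.ext_iff]
    simp only [Polynomial.coeff_map, Polynomial.coeff_zero]
    rfl
  obtain ⟨t, ht, h⟩ := Semi.semi_zs Φ
  refine ⟨a, a - t, fun h0 => ht (by linear_combination h0), ?_⟩
  let π : A × (Fin (m + 1) → ℂ) →ₗ[ℂ] Polynomial ℂ := A.subtype ∘ₗ LinearMap.fst ℂ _ _
  have h1 : A ⊓ Bsq a (a - t) m ≤ (Semi.zs Φ t).map π := by
    rintro f ⟨hf, hf'⟩
    have : Bsq a (a - t) m ≤ Submodule.span ℂ (Set.range (w t)) := by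
      refine Submodule.span_le.2 ?_
      rintro _ ⟨i, j, hij, rfl⟩
      rw [show (Polynomial.X - Polynomial.C (a - t)) ^ 2 = (Polynomial.X - Polynomial.C a) ^ 2 +
        Polynomial.C t * (2 * (Polynomial.X - Polynomial.C a) + Polynomial.C t) by
          rw [map_sub]; ring, add_pow, Finset.mul_sum]
      refine Submodule.sum_mem _ fun k hk => ?_
      have hk' := Finset.mem_range.1 hk
      have e : ((Polynomial.X - Polynomial.C a) ^ 2) ^ i * (((Polynomial.X - Polynomial.C a) ^ 2) ^ k *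
          (Polynomial.C t * (2 * (Polynomial.X - Polynomial.C a) + Polynomial.C t)) ^ (j - k) *
          (j.choose k : Polynomial ℂ)) = (t ^ (j - k) * j.choose k) • w t ⟨i + k, by omega⟩ := by
        simp only [w]
        rw [show m - (i + k) = j - k by omega, Polynomial.smul_eq_C_mul, mul_pow, pow_add, map_mul,
          map_pow, map_natCast]
        ring
      rw [e]
      exact Submodule.smul_mem _ _ (Submodule.subset_span ⟨_, rfl⟩)
    obtain ⟨c, hc⟩ := (Submodule.mem_span_range_iff_exists_fun ℂ).1 (this hf')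
    exact ⟨(⟨f, hf⟩, c), (hΦ t _).2 hc.symm, rfl⟩
  have hw : ∀ i : Fin (m + 1), w 0 i =
      (2 : ℂ) ^ (m - i) • (Polynomial.X - Polynomial.C a) ^ (m + i) := fun i => by
    have := i.2
    simp only [w]
    rw [map_zero, add_zero, mul_pow, ← pow_mul, show m + i = 2 * i + (m - i) by omega, pow_add,
      Polynomial.smul_eq_C_mul, map_pow, show Polynomial.C (2 : ℂ) = 2 from rfl]
    ring
  have h2 := TransAux.finrank_split π (Semi.zs Φ 0)
  have h3 : Semi.zs Φ 0 ⊓ LinearMap.ker π = ⊥ := by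
    refine (Submodule.eq_bot_iff _).2 fun u hu => ?_
    have e1 := (hΦ 0 u).1 hu.1
    have e2 : u.1.1 = 0 := hu.2
    refine Prod.ext (Subtype.ext e2) (funext fun i => ?_)
    have e3 := congrArg (fun f => (Polynomial.taylor a f).coeff (m + i)) (e2.symm.trans e1)
    simp only [hw, map_zero, Polynomial.coeff_zero, map_sum, map_smul, Polynomial.taylor_pow,
      map_sub, Polynomial.taylor_X, Polynomial.taylor_C, add_sub_cancel_right,
      Polynomial.finsetSum_coeff, Polynomial.coeff_smul, Polynomial.coeff_X_pow, smul_eq_mul,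
      add_right_inj] at e3
    rw [Finset.sum_eq_single i (fun j _ hj => by
      rw [if_neg fun h => hj (Fin.ext h.symm), mul_zero, mul_zero]) (by simp), if_pos rfl,
      mul_one] at e3
    exact (mul_eq_zero.1 e3.symm).resolve_right (pow_ne_zero _ two_ne_zero)
  rw [h3, finrank_bot, add_zero] at h2
  have h4 := TransAux.finrank_dvd A ((Semi.zs Φ 0).map π) (n := m) (by
    rintro _ ⟨u, -, rfl⟩
    exact u.1.2) ha (by
    rintro _ ⟨u, hu, rfl⟩
    change _ ∣ u.1.1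
    rw [(hΦ 0 u).1 hu]
    refine Finset.dvd_sum fun i _ => ?_
    rw [hw, pow_add]
    exact ((dvd_mul_right _ _).trans (Dvd.intro_left _ (Polynomial.smul_eq_C_mul _).symm)).trans
      (Dvd.intro_left _ (Polynomial.smul_eq_C_mul _).symm))
  exact (Submodule.finrank_mono h1).trans ((Submodule.finrank_map_le _ _).trans (by omega))

/-- Four points of multiplicity `m` collide to a point of multiplicity `2 m` with `m` general
conditions on the tangent form. -/
theorem local_collide {U : Type} [AddCommGroup U] [Module ℂ U] [FiniteDimensional ℂ U]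
    (θ : U →ₗ[ℂ] MvPolynomial (Fin 2) ℂ) (p : Fin 2 → ℂ) (m : ℕ) : ∃ Q : Fin 4 → Fin 2 → ℂ,
      finrank ℂ ↥(⨅ i, (van (Q i) m).comap θ) ≤ max (finrank ℂ ((van p (2 * m)).comap θ) - m)
        (finrank ℂ ((van p (2 * m + 1)).comap θ)) := by
  set W := (van p (2 * m)).comap θ with hW
  set T : U →ₗ[ℂ] Polynomial ℂ := tau (2 * m) ∘ₗ (tr p).toLinearMap ∘ₗ θ with hT
  obtain ⟨a, b, hab, h1⟩ := bsq_rank (W.map T) m
  have hc : b - a ≠ 0 := sub_ne_zero.2 hab.symm
  let φ : Fin 2 → MvPolynomial (Fin 2) ℂ :=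
    ![C (b - a)⁻¹ * (C b * X 0 - C a * X 1), C (b - a)⁻¹ * (X 0 - X 1)]
  have hφ : ∀ f : MvPolynomial (Fin 2) ℂ,
      aeval ![X 0 - C a * X 1, X 0 - C b * X 1] (aeval φ f) = f := by
    have e : (C (b - a)⁻¹ : MvPolynomial (Fin 2) ℂ) * (C b - C a) = 1 := by
      rw [← map_sub, ← map_mul, inv_mul_cancel₀ hc, map_one]
    have : (aeval ![X 0 - C a * X 1, X 0 - C b * X 1] :
        MvPolynomial (Fin 2) ℂ →ₐ[ℂ] MvPolynomial (Fin 2) ℂ).comp (aeval φ) = AlgHom.id ℂ _ := by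
      refine MvPolynomial.algHom_ext fun k => ?_
      fin_cases k
      · simp only [φ, AlgHom.comp_apply, aeval_X, Fin.zero_eta, Matrix.cons_val_zero, map_mul,
          map_sub, algHom_C, algebraMap_eq, Matrix.cons_val_one, AlgHom.id_apply]
        linear_combination X 0 * e
      · simp only [φ, AlgHom.comp_apply, aeval_X, Fin.mk_one, Matrix.cons_val_zero, map_mul,
          map_sub, algHom_C, algebraMap_eq, Matrix.cons_val_one, AlgHom.id_apply]
        linear_combination X 1 * e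
    exact fun f => congrArg (fun g : MvPolynomial (Fin 2) ℂ →ₐ[ℂ] MvPolynomial (Fin 2) ℂ => g f)
      this
  obtain ⟨e, h2⟩ := collide_sq ((aeval φ : MvPolynomial (Fin 2) ℂ →ₐ[ℂ]
    MvPolynomial (Fin 2) ℂ).toLinearMap ∘ₗ (tr p).toLinearMap ∘ₗ θ) m
  refine ⟨fun i k => eval (four e i) (φ k) + p k, ?_⟩
  refine (Submodule.finrank_mono (iInf_mono fun i u hu => ?_)).trans (h2.trans ?_)
  · refine pull (Q := fun k => eval (four e i) (φ k)) (fun _ => rfl) ?_
    exact pull (φ := fun k => X k + C (p k)) (fun k => by simp) hu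
  set K := W ⊓ (Bsq a b m).comap T with hK
  have h3 : (Esq m).comap ((aeval φ : MvPolynomial (Fin 2) ℂ →ₐ[ℂ]
      MvPolynomial (Fin 2) ℂ).toLinearMap ∘ₗ (tr p).toLinearMap ∘ₗ θ) ≤ K := by
    intro u hu
    have := esq_sub a b (g := aeval φ (tr p (θ u))) hu
    rw [hφ] at this
    exact ⟨van_tr.1 this.1, this.2⟩
  have h4 := TransAux.finrank_split T K
  have h5 := TransAux.finrank_split T W
  have h6 : finrank ℂ (K.map T) ≤ finrank ℂ ↥(W.map T ⊓ Bsq a b m) :=
    Submodule.finrank_mono (by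
      rintro _ ⟨u, hu, rfl⟩
      exact ⟨⟨u, hu.1, rfl⟩, hu.2⟩)
  have h7 : finrank ℂ ↥(K ⊓ LinearMap.ker T) ≤ finrank ℂ ↥(W ⊓ LinearMap.ker T) :=
    Submodule.finrank_mono (inf_le_inf_right _ inf_le_left)
  have h8 : finrank ℂ ↥(W ⊓ LinearMap.ker T) ≤ finrank ℂ ((van p (2 * m + 1)).comap θ) :=
    Submodule.finrank_mono fun u hu => van_tr.1 (van_succ (van_tr.2 hu.1) hu.2)
  have h9 := Submodule.finrank_mono h3
  omega

end Pool.Agent.P.MP_8707bd_ag.Col
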