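import Pool.Agent.P.MP_8707bd_ag.Col.Gen
import Pool.Agent.P.MP_8707bd_ag.KV.Upper
import Pool.Agent.P.MP_8707bd_ag.Win.Square

/-!
The expected dimension from a nef class with double points (helper file only).
-/

namespace Pool.Agent.P.MP_8707bd_ag.Col

open MvPolynomial Module Win All Ex Multiset KV

/-- The class with `n` double points, `t` simple points and self-intersection zero is nef. -/
def NefC (n t : ℕ) : Prop := ∀ (d : ℕ) (μ : Fin n ⊕ Fin t → ℕ),
  (d : ℝ) * √((4 * n + t : ℕ) : ℝ) < 2 * ∑ i, (μ (Sum.inl i) : ℝ) + ∑ j, (μ (Sum.inr j) : ℝ) →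
    KE (tri (d + 1)) μ 0

lemma NefC.gen {n t : ℕ} (H : NefC n t) {κ : Type} [Fintype κ] (hκ : Fintype.card κ = t) (d : ℕ)
    (μ : Fin n ⊕ κ → ℕ) (h : (d : ℝ) * √((4 * n + t : ℕ) : ℝ) <
      2 * ∑ i, (μ (Sum.inl i) : ℝ) + ∑ j, (μ (Sum.inr j) : ℝ)) : KE (tri (d + 1)) μ 0 := by
  let e := Fintype.equivFinOfCardEq hκ
  refine (H d (fun x => μ (Equiv.sumCongr (Equiv.refl _) e.symm x)) ?_).reindex
    (Equiv.sumCongr (Equiv.refl _) e) μ ?_
  · have := e.symm.sum_comp fun j => (μ (Sum.inr j) : ℝ)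
    simpa [this] using h
  · rintro (i | i) <;> simp

lemma amp_unif {κ : Type} [Fintype κ] (h : 9 ≤ Fintype.card κ) :
    AMP (genF κ) √(Fintype.card κ) fun _ => 1 := by
  have key : ∀ s : ℕ, 9 ≤ s → AMP (genF (Fin s)) √s fun _ => 1 := by
    intro s hs
    rcases hs.eq_or_lt with rfl | hs
    · have e : √((9 : ℕ) : ℝ) = 3 := by
        rw [show ((9 : ℕ) : ℝ) = 3 ^ 2 by norm_num, Real.sqrt_sq (by norm_num)]
      have h1 := amp_of_ke (ι := Fin (3 ^ 2)) (D := 3) (M := fun _ => 1) (by norm_num)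
        (by simp; norm_num) fun k e he => by
          have h2 : e < k * 3 := by exact_mod_cast he
          rw [mul_one]
          refine (sq_nag 3 k).mono fun s hs => ?_
          have : s 0 + s 1 < e + 1 := hs
          change s 0 + s 1 < 3 * k
          omega
      rw [e]
      simpa using h1
    · exact amp_nagata hs
  let e := Fintype.equivFin κ
  refine ((key _ h).pad_gen e.symm.injective).mono le_rfl fun i => ?_
  obtain ⟨a, rfl⟩ := e.symm.surjective i
  rw [e.symm.injective.extend_apply]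

lemma minus_empty {n t j c d m : ℕ} (H : NefC n t) (hj : j + c = t)
    (h : (d : ℝ) * √((4 * n + t : ℕ) : ℝ) < (4 * n + t : ℕ) * m + 2 * n + j) :
    gd d (replicate c m + replicate n (2 * m + 1) + replicate j (m + 1)) ≤ 0 := by
  refine gd_le (μ := Sum.elim (fun _ : Fin n => 2 * m + 1)
    (Sum.elim (fun _ : Fin j => m + 1) fun _ : Fin c => m)) ?_ (H.gen (by simp [hj]) d _ ?_)
  · rw [ms_sum, ms_sum, ms_const, ms_const, ms_const]
    abel
  · refine h.trans_le (le_of_eq ?_)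
    simp [← hj]
    ring

lemma plus_ns {n t j c d m : ℕ} (H : NefC n t) (hj : j + c = t) (h9 : 9 ≤ n + c)
    (h : m * √((4 * n + t : ℕ) : ℝ) + √((n + c : ℕ) : ℝ) < d + 3) (hm : 1 ≤ m) :
    gd d (replicate c m + replicate n (2 * m) + replicate j (m - 1)) +
      (4 * n + t) * (m + 1).choose 2 ≤ (d + 2).choose 2 + n * m + j * m := by
  have h0 : (0 : ℝ) < (4 * n + t : ℕ) := by exact_mod_cast (by omega : 0 < 4 * n + t)
  have a1 := amp_of_ke (ι := Fin n ⊕ Fin j ⊕ Fin c) (D := √((4 * n + t : ℕ) : ℝ))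
    (M := Sum.elim (fun _ => 2) fun _ => 1) (Real.sqrt_pos.2 h0)
    (by rw [Real.sq_sqrt h0.le]; simp [← hj]; linarith) fun k e he => by
      refine H.gen (by simp [hj]) e _ ?_
      have := mul_lt_mul_of_pos_right he (Real.sqrt_pos.2 h0)
      rw [mul_assoc, Real.mul_self_sqrt h0.le] at this
      refine this.trans_le (le_of_eq ?_)
      simp [← hj]
      ring
  have hf : Function.Injective (Sum.map id Sum.inr : Fin n ⊕ Fin c → Fin n ⊕ Fin j ⊕ Fin c) :=
    Function.injective_id.sumMap Sum.inr_injective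
  have a2 := (amp_unif (κ := Fin n ⊕ Fin c) (by simpa using h9)).pad_gen hf
  have a3 := (a1.smul (c := m) (Nat.cast_nonneg m)).add a2
  obtain ⟨k1, k2⟩ := kv_ke a3 (d := d) (m := Sum.elim (fun _ => 2 * m)
    (Sum.elim (fun _ => m - 1) fun _ => m)) (by simpa using h) (by
      rintro (i | i | i)
      · rw [show (Sum.inl i : Fin n ⊕ Fin j ⊕ Fin c) = Sum.map id Sum.inr (Sum.inl i) from rfl,
          hf.extend_apply]
        simp [mul_comm]
      · rw [Function.extend_apply' _ _ _ (by rintro ⟨a | a, h⟩ <;> simp at h)]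
        simp [Nat.cast_sub hm]
      · rw [show (Sum.inr (Sum.inr i) : Fin n ⊕ Fin j ⊕ Fin c) = Sum.map id Sum.inr (Sum.inr i)
          from rfl, hf.extend_apply]
        simp)
  have k3 := gd_le (s := replicate c m + replicate n (2 * m) + replicate j (m - 1)) (by
    rw [ms_sum, ms_sum, ms_const, ms_const, ms_const]
    abel) k2
  simp only [Fintype.sum_sum_type, Sum.elim_inl, Sum.elim_inr, Finset.sum_const, Finset.card_univ,
    Fintype.card_fin, smul_eq_mul] at k1 k3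
  have e1 : (2 * m + 1).choose 2 + m = 4 * (m + 1).choose 2 := by
    have b1 := Small.two_choose_fa (2 * m)
    have b2 := Small.two_choose_fa m
    zify
    push_cast at b1
    linarith
  have e2 : (m - 1 + 1).choose 2 + m = (m + 1).choose 2 := by
    rw [Nat.sub_add_cancel hm, Nat.choose_succ_succ' m 1, Nat.choose_one_right, add_comm]
  have e3 : (4 * n + t) * (m + 1).choose 2 = n * (2 * m + 1).choose 2 + n * m +
      (j * (m - 1 + 1).choose 2 + j * m) + c * (m + 1).choose 2 := by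
    rw [← mul_add, ← mul_add, e1, e2, ← hj]
    ring
  omega

/-- The empty case. -/
theorem caseA {n t j c d m : ℕ} (H : NefC n t) (hj : j + c = t) (h9 : 9 ≤ n + c) (hm : 1 ≤ m)
    (h1 : (d : ℝ) * √((4 * n + t : ℕ) : ℝ) < (4 * n + t : ℕ) * m + 2 * n)
    (h2 : m * √((4 * n + t : ℕ) : ℝ) + √((n + c : ℕ) : ℝ) < d + 3)
    (h3 : (d + 2).choose 2 + j * m ≤ (4 * n + t) * (m + 1).choose 2) :
    gd d (replicate (4 * n + t) m) ≤ 0 := by
  rw [add_comm, replicate_add]
  refine gd_middle d m n 0 _ ?_ ?_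
  · have a1 := plus_ns H hj h9 h2 hm
    have a2 := gd_lower d j (Nat.sub_le m 1) (replicate c m + replicate n (2 * m))
    rw [add_right_comm, ← replicate_add, add_comm c, hj] at a2
    omega
  · simpa using minus_empty (j := 0) H (zero_add t) (by simpa using h1)

/-- The nonspecial case. -/
theorem caseB {n t j c d m : ℕ} (H : NefC n t) (hj : j + c = t) (h9 : 9 ≤ n + t) (hm : 1 ≤ m)
    (h1 : (d : ℝ) * √((4 * n + t : ℕ) : ℝ) < (4 * n + t : ℕ) * m + 2 * n + j)
    (h2 : m * √((4 * n + t : ℕ) : ℝ) + √((n + t : ℕ) : ℝ) < d + 3)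
    (h3 : j * (m + 1) + (4 * n + t) * (m + 1).choose 2 ≤ (d + 2).choose 2) :
    gd d (replicate (4 * n + t) m) ≤ (d + 2).choose 2 - (4 * n + t) * (m + 1).choose 2 := by
  rw [add_comm _ t, replicate_add, add_comm t]
  refine gd_middle d m n _ _ ?_ ?_
  · have a1 := plus_ns (j := 0) H (zero_add t) h9 h2 hm
    rw [replicate_zero, add_zero] at a1
    omega
  · have a1 := minus_empty H hj h1
    have a2 := gd_raise d j (Nat.le_succ m) (replicate c m + replicate n (2 * m + 1))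
    rw [add_right_comm, ← replicate_add, add_comm c, hj, Nat.choose_succ_succ' (m + 1) 1,
      Nat.choose_one_right, Nat.add_sub_cancel] at a2
    change _ ≤ gd d (_ + replicate j (m + 1)) + _ at a2
    omega

lemma ineq_main {l σ r n t j c m d : ℝ} (hl : l * l = r) (h6 : 6 ≤ l) (hr : r = 4 * n + t)
    (hj : j + c = t) (hj0 : 0 ≤ j) (hσ : σ * σ = n + c) (h3 : 3 ≤ σ) (ht : t ≤ 12)
    (ht' : 3 * t ≤ 4 * l) (hm : 2 ≤ m) (hrm : r ≤ 76 * (m + 1)) (hd : 0 ≤ d)
    (h : r * (m * (m + 1)) + 2 ≤ (d + 1) * (d + 2) + 2 * (j + 1) * m) : m * l + σ < d + 3 := by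
  have a1 : σ ≤ l / 2 + 1 := by nlinarith
  have a2 : 2 * l * σ ≤ r + 3 * t / 2 - 2 * j := by nlinarith [sq_nonneg (σ - l / 2)]
  have a3 : (σ - 3 / 2) ^ 2 ≤ (l - 1) ^ 2 / 4 := by nlinarith
  have a4 : (l - 1) ^ 2 / 4 < m * (3 * l - 2 - 3 * t / 2) + 9 / 4 := by
    rcases le_total l 9 with b | b
    · have : 2 * (l - 2) ≤ m * (3 * l - 2 - 3 * t / 2) := by nlinarith
      nlinarith
    rcases le_total l 17 with b' | b'
    · have : 2 * (3 * l - 20) ≤ m * (3 * l - 2 - 3 * t / 2) := by nlinarith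
      nlinarith
    · have : m * 31 ≤ m * (3 * l - 2 - 3 * t / 2) := by nlinarith
      nlinarith
  have a5 : m * (3 * l - 2 - 3 * t / 2) ≤ m * (r - 2 * (j + 1) - 2 * l * (σ - 3 / 2)) := by
    nlinarith
  have a6 : (m * l + (σ - 3 / 2)) ^ 2 < (d + 3 / 2) ^ 2 := by
    have : (m * l + (σ - 3 / 2)) ^ 2 = m ^ 2 * r + 2 * m * l * (σ - 3 / 2) + (σ - 3 / 2) ^ 2 := by
      rw [← hl]; ring
    nlinarith
  have := lt_of_pow_lt_pow_left₀ 2 (by linarith) a6
  linarith

lemma ineq_low {l r m d : ℝ} (hl : l * l = r) (h6 : 6 ≤ l) (hm : 0 ≤ m)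
    (h : (d + 1) * (d + 2) ≤ r * (m * (m + 1))) : d + 3 / 2 < l * (m + 1 / 2) := by
  refine lt_of_pow_lt_pow_left₀ 2 (by positivity) ?_
  have : (l * (m + 1 / 2)) ^ 2 = r * (m * (m + 1)) + r / 4 := by rw [← hl]; ring
  nlinarith

lemma ineq_cap {l r m d : ℝ} (hl : l * l = r) (h6 : 6 ≤ l) (hm : 2 ≤ m) (hrm : r ≤ 76 * (m + 1))
    (hd : 0 ≤ d) (h1 : r * (m * (m + 1)) ≤ (d + 2) * (d + 3))
    (h2 : r ≤ 64 ∨ (r - 1) * (m * (m + 1)) ≤ (d + 1) * (d + 2)) : l * (m + 1 / 2) < d + 3 := by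
  by_cases h : l ≤ 4 * m
  · have a1 : (l * (m + 1 / 2) - 1 / 2) ^ 2 < (d + 5 / 2) ^ 2 := by
      have : (l * (m + 1 / 2) - 1 / 2) ^ 2 =
          r * (m * (m + 1)) + r / 4 - l * (m + 1 / 2) + 1 / 4 := by rw [← hl]; ring
      nlinarith
    have := lt_of_pow_lt_pow_left₀ 2 (by linarith) a1
    linarith
  · have h3 : (r - 1) * (m * (m + 1)) ≤ (d + 1) * (d + 2) := h2.resolve_left (by nlinarith)
    have h4 : l ≤ 8 * m := by nlinarith
    have a1 : (l * (m + 1 / 2) - 3 / 2) ^ 2 < (d + 3 / 2) ^ 2 := by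
      have e : (l * (m + 1 / 2) - 3 / 2) ^ 2 =
          r * (m * (m + 1)) + r / 4 - 3 * l * (m + 1 / 2) + 9 / 4 := by rw [← hl]; ring
      have b1 : 4 * m * (4 * m + 6) ≤ l * (12 * m + 6 - l) := by nlinarith
      nlinarith
    have := lt_of_pow_lt_pow_left₀ 2 (by linarith) a1
    linarith

lemma ineq_up {l r n t m d : ℝ} (hl : l * l = r) (h6 : 6 ≤ l) (hr : r = 4 * n + t)
    (ht' : 3 * t ≤ 4 * l) (hm : 0 ≤ m) (h : r * m + 2 * n ≤ d * l) :
    4 * (m + 1) + r * (m * (m + 1)) ≤ (d + 1) * (d + 2) := by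
  have a1 : l * (m + 1 / 2) + 5 / 6 ≤ d + 3 / 2 := by
    refine le_of_mul_le_mul_right ?_ (show 0 < l by linarith)
    nlinarith
  have a2 : (l * (m + 1 / 2) + 5 / 6) ^ 2 ≤ (d + 3 / 2) ^ 2 :=
    pow_le_pow_left₀ (by positivity) a1 2
  have e : (l * (m + 1 / 2) + 5 / 6) ^ 2 =
      r * (m * (m + 1)) + r / 4 + 5 / 3 * l * (m + 1 / 2) + 25 / 36 := by rw [← hl]; ring
  nlinarith

lemma gd_linear {r m : ℕ} (hm : 1 ≤ m) (hr : 76 * (m + 1) ≤ r) (d : ℕ) :
    gd d (replicate r m) ≤ (d + 2).choose 2 - r * (m + 1).choose 2 := by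
  obtain ⟨Φ, h0, hΦ⟩ := main r m d hm hr
  obtain ⟨Ψ, h1, hΨ⟩ := Small.exists_gen r 0
  obtain ⟨p, hp⟩ := Small.exists_pt_fa (Φ * Ψ) (mul_ne_zero h0 h1)
  rw [map_mul, mul_ne_zero_iff] at hp
  have h2 := (hΦ p hp.1).1
  rw [Small.fat_eq_fz (hΨ p hp.2).1] at h2
  exact gd_le (ms_const r m) (Small.ke_of_hh_le ((Small.hh_le p _).trans h2.le))

lemma ke_zero {ι : Type} [Fintype ι] (μ : ι → ℕ) (d : ℕ) :
    KE (tri (d + 1)) μ ((d + 2).choose 2) := by
  simpa using ke_tri_up (ke_empty μ 0) (Nat.zero_le (d + 1))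

lemma ke_one (r d : ℕ) : KE (tri (d + 1)) (fun _ : Fin r => 1) ((d + 2).choose 2 - r) := by
  obtain ⟨P, Q, h⟩ := (ke_zero (fun _ : Fin 0 => 0) d).more
    (e' := r + ((d + 2).choose 2 - r)) (by omega)
  refine ⟨fun i => Q (Fin.castAdd _ i), fun a => Q (Fin.natAdd r a), fun F h1 h2 h3 =>
    h F h1 (fun i => i.elim0) fun a => ?_⟩
  refine Fin.addCases (fun i => ?_) h3 a
  simpa using h2 i

lemma cast_le_choose {a b d m : ℕ} : a + b * (m + 1).choose 2 ≤ (d + 2).choose 2 ↔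
    2 * (a : ℝ) + b * (m * (m + 1)) ≤ (d + 1) * (d + 2) := by
  have h1 := cast_choose m
  have h2 := cast_choose (d + 1)
  rw [← Nat.cast_le (α := ℝ)]
  push_cast at h2 ⊢
  rw [← h1, show (d : ℝ) + 2 = d + 1 + 1 by ring, ← h2]
  constructor <;> intro h <;> linarith

lemma cast_choose_le {a b d m : ℕ} : (d + 2).choose 2 ≤ a + b * (m + 1).choose 2 ↔
    ((d : ℝ) + 1) * (d + 2) ≤ 2 * (a : ℝ) + b * (m * (m + 1)) := by
  have h1 := cast_choose m
  have h2 := cast_choose (d + 1)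
  rw [← Nat.cast_le (α := ℝ)]
  push_cast at h2 ⊢
  rw [← h1, show (d : ℝ) + 2 = d + 1 + 1 by ring, ← h2]
  constructor <;> intro h <;> linarith

lemma choose_step (d : ℕ) : (d + 1 + 2).choose 2 = (d + 2).choose 2 + (d + 2) := by
  rw [show d + 1 + 2 = d + 2 + 1 from rfl, Nat.choose_succ_succ' (d + 2) 1, Nat.choose_one_right,
    add_comm]

lemma sqrt_six {r : ℕ} (h : 36 ≤ r) : 6 ≤ √(r : ℝ) :=
  Real.le_sqrt_of_sq_le (by exact_mod_cast h)

/-- The data for `r` points. -/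
def Cert (r : ℕ) : Prop :=
  ∃ n t, r = 4 * n + t ∧ t ≤ 12 ∧ 3 * (t : ℝ) ≤ 4 * √(r : ℝ) ∧ NefC n t

/-- The case without simple points. -/
theorem nefC_zero {n : ℕ} (hn : 9 ≤ n) : NefC n 0 := by
  intro d μ h
  have h0 : (0 : ℝ) < n := by exact_mod_cast (by omega : 0 < n)
  have e : √((4 * n + 0 : ℕ) : ℝ) = 2 * √(n : ℝ) := by
    rw [show ((4 * n + 0 : ℕ) : ℝ) = 2 ^ 2 * n by push_cast; ring, Real.sqrt_mul (by norm_num),
      Real.sqrt_sq (by norm_num)]
  rw [e, Finset.univ_eq_empty (α := Fin 0), Finset.sum_empty, ← Nat.cast_sum] at h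
  have hs := Real.sqrt_pos.2 h0
  have hl := Real.mul_self_sqrt h0.le
  set S := ∑ i, μ (Sum.inl i) with hS
  have h1 : (d : ℝ) * √(n : ℝ) < S := by linarith
  have h2 : KE (tri (n * d + 1)) (fun _ : Fin n => S) 0 := by
    rcases hn.eq_or_lt with rfl | hn
    · refine (sq_nag 3 S).mono fun s hs => ?_
      have e3 : √((9 : ℕ) : ℝ) = 3 := by
        rw [show ((9 : ℕ) : ℝ) = 3 ^ 2 by norm_num, Real.sqrt_sq (by norm_num)]
      rw [e3] at h1
      have h3 : d * 3 < S := by exact_mod_cast h1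
      have : s 0 + s 1 < 9 * d + 1 := hs
      change s 0 + s 1 < 3 * S
      omega
    · have h3 : (0 : ℝ) ≤ d * √(n : ℝ) := by positivity
      refine ke_nagata hn ?_ ?_
      · have : (0 : ℝ) < S := by linarith
        exact_mod_cast this
      · have h4 : ((d : ℝ) * √(n : ℝ)) ^ 2 ≤ S ^ 2 := by gcongr
        have h5 : ((n : ℝ) * d) ^ 2 ≤ n * S ^ 2 := by
          rw [mul_pow, Real.sq_sqrt h0.le] at h4
          nlinarith
        exact_mod_cast h5
  obtain ⟨P, Q, h3⟩ := sym (by omega) (fun i => μ (Sum.inl i)) d S le_rfl h2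
  exact ⟨Sum.elim P fun _ => 0, Q, fun F k1 k2 => h3 F k1 fun i => k2 (Sum.inl i)⟩

theorem cert_four {n : ℕ} (hn : 9 ≤ n) : Cert (4 * n) :=
  ⟨n, 0, rfl, by omega, by simp, nefC_zero hn⟩

theorem upper {r m : ℕ} (hr : 36 ≤ r) (H : Cert r) (hm : 2 ≤ m) (d : ℕ) :
    r * (m + 1).choose 2 ≤ (d + 2).choose 2 →
      gd d (replicate r m) ≤ (d + 2).choose 2 - r * (m + 1).choose 2 := by
  by_cases hL : 76 * (m + 1) ≤ r
  · exact fun _ => gd_linear (by omega) hL d
  obtain ⟨n, t, rfl, t1, t2, H⟩ := H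
  have h6 := sqrt_six hr
  have hl := Real.mul_self_sqrt (Nat.cast_nonneg (α := ℝ) (4 * n + t))
  have hm' : (2 : ℝ) ≤ m := by exact_mod_cast hm
  have hL' : ((4 * n + t : ℕ) : ℝ) ≤ 76 * (m + 1) := by exact_mod_cast (not_le.1 hL).le
  have t1' : (t : ℝ) ≤ 12 := by exact_mod_cast t1
  have hr' : ((4 * n + t : ℕ) : ℝ) = 4 * n + t := by push_cast; rfl
  induction d with
  | zero =>
    intro h
    have h0 : 0 < (m + 1).choose 2 := Nat.choose_pos (by omega)
    have h1 : (4 * n + t) * 1 ≤ (4 * n + t) * (m + 1).choose 2 := Nat.mul_le_mul_left _ h0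
    have h2 : Nat.choose (0 + 2) 2 = 1 := rfl
    omega
  | succ d ih =>
    intro h
    by_cases h1 : (4 * n + t) * (m + 1).choose 2 ≤ (d + 2).choose 2
    · have a1 := ih h1
      have a2 := gd_succ d (replicate (4 * n + t) m)
      have a3 := choose_step d
      omega
    have b1 := (cast_le_choose (a := 0)).1 ((zero_add _).trans_le h)
    have b2 := (cast_choose_le (a := 0)).1 ((not_le.1 h1).le.trans_eq (zero_add _).symm)
    rw [Nat.cast_zero, mul_zero, zero_add] at b1 b2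
    have b3 := ineq_low hl h6 (by linarith) b2
    have h9 : 9 ≤ n + t := by omega
    have b4 := ineq_main (σ := √((n + t : ℕ) : ℝ)) (j := 0) (c := t) (d := (d + 1 : ℕ)) hl h6 hr'
      (zero_add _) le_rfl (by rw [Real.mul_self_sqrt (Nat.cast_nonneg _)]; push_cast; rfl)
      (Real.le_sqrt_of_sq_le (by exact_mod_cast h9)) t1' t2 hm' hL' (Nat.cast_nonneg _)
      (by linarith)
    by_cases h2 : ((d + 1 : ℕ) : ℝ) * √((4 * n + t : ℕ) : ℝ) < (4 * n + t : ℕ) * m + 2 * n
    · exact caseB (j := 0) H (zero_add t) h9 (by omega) (by simpa using h2) b4 (by omega)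
    have b5 : ((d + 1 : ℕ) : ℝ) * √((4 * n + t : ℕ) : ℝ) < (4 * n + t : ℕ) * m +
        (4 * n + t : ℕ) / 2 - √((4 * n + t : ℕ) : ℝ) / 2 := by
      push_cast at hl b3 h6 ⊢
      nlinarith
    have b6 : 2 ≤ t := by
      have : (2 : ℝ) ≤ t := by linarith [not_lt.1 h2]
      exact_mod_cast this
    refine caseB (j := 2) (c := t - 2) H (by omega) h9 (by omega) ?_ b4 (cast_le_choose.2 ?_)
    · push_cast at b5 t2 ⊢
      linarith
    · have := ineq_up hl h6 hr' t2 (by linarith) (not_lt.1 h2)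
      push_cast at this ⊢
      linarith

theorem lower_step {r m d : ℕ} (hr : 36 ≤ r) (H : Cert r) (hm : 2 ≤ m)
    (h1 : (d + 2).choose 2 ≤ r * (m + 1).choose 2)
    (h2 : r * (m + 1).choose 2 ≤ (d + 1 + 2).choose 2)
    (h3 : r ≤ 64 ∨ (r - 1) * (m + 1).choose 2 ≤ (d + 2).choose 2) :
    gd d (replicate r m) ≤ 0 := by
  by_cases hL : 76 * (m + 1) ≤ r
  · have := gd_linear (by omega) hL d
    omega
  by_cases hN : d ^ 2 ≤ r * m ^ 2
  · exact gd_le (ms_const r m) (ke_nagata (by omega) (by omega) hN)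
  obtain ⟨n, t, rfl, t1, t2, H⟩ := H
  have h6 := sqrt_six hr
  have hl := Real.mul_self_sqrt (Nat.cast_nonneg (α := ℝ) (4 * n + t))
  have hm' : (2 : ℝ) ≤ m := by exact_mod_cast hm
  have hL' : ((4 * n + t : ℕ) : ℝ) ≤ 76 * (m + 1) := by exact_mod_cast (not_le.1 hL).le
  have t1' : (t : ℝ) ≤ 12 := by exact_mod_cast t1
  have hr' : ((4 * n + t : ℕ) : ℝ) = 4 * n + t := by push_cast; rfl
  have b1 := (cast_choose_le (a := 0)).1 (h1.trans_eq (zero_add _).symm)
  have b2 := (cast_le_choose (a := 0)).1 ((zero_add _).trans_le h2)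
  rw [Nat.cast_zero, mul_zero, zero_add] at b1 b2
  have b3 := ineq_low hl h6 (by linarith) b1
  have b4 : (d : ℝ) * √((4 * n + t : ℕ) : ℝ) < (4 * n + t : ℕ) * m + 2 * n := by nlinarith
  set J := ((4 * n + t) * (m + 1).choose 2 - (d + 2).choose 2) / m with hJ
  have j1 : J * m ≤ (4 * n + t) * (m + 1).choose 2 - (d + 2).choose 2 := Nat.div_mul_le_self _ _
  have j2 : (4 * n + t) * (m + 1).choose 2 - (d + 2).choose 2 < (J + 1) * m := by
    rw [mul_comm (J + 1)]
    exact Nat.lt_mul_div_succ _ (by omega)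
  by_cases hc : J ≤ t ∧ 9 ≤ n + (t - J)
  · refine caseA (j := J) (c := t - J) H (by omega) hc.2 (by omega) b4 ?_ (by omega)
    refine ineq_main (j := J) (c := (t - J : ℕ)) hl h6 hr' (by rw [Nat.cast_sub hc.1]; ring)
      (Nat.cast_nonneg _) (by rw [Real.mul_self_sqrt (Nat.cast_nonneg _)]; push_cast; rfl)
      (Real.le_sqrt_of_sq_le (by exact_mod_cast hc.2)) t1' t2 hm' hL' (Nat.cast_nonneg _) ?_
    have c1 : 1 + (4 * n + t) * (m + 1).choose 2 ≤ (d + 2).choose 2 + (J + 1) * m := by omega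
    have c2 := (Nat.cast_le (α := ℝ)).2 c1
    have c3 := cast_choose m
    have c4 := cast_choose (d + 1)
    push_cast at c2 c4 ⊢
    rw [← c3, show (d : ℝ) + 2 = d + 1 + 1 by ring, ← c4]
    linarith
  by_cases h9 : 9 ≤ n
  · have c0 : t * m ≤ J * m := Nat.mul_le_mul_right _ (by omega)
    refine caseA (j := t) (c := 0) H rfl h9 (by omega) b4 ?_ (by omega)
    have c1 := ineq_cap (d := d) hl h6 hm' hL' (Nat.cast_nonneg _) (by push_cast at b2 ⊢; linarith)
      (h3.imp (fun h => by exact_mod_cast h) fun h => by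
        have := (cast_le_choose (a := 0)).1 ((zero_add _).trans_le h)
        rwa [Nat.cast_zero, mul_zero, zero_add, Nat.cast_sub (by omega), Nat.cast_one] at this)
    have c2 : √((n + 0 : ℕ) : ℝ) ≤ √((4 * n + t : ℕ) : ℝ) / 2 := by
      refine Real.sqrt_le_iff.2 ⟨by positivity, ?_⟩
      have : (0 : ℝ) ≤ t := Nat.cast_nonneg _
      push_cast at hl ⊢
      nlinarith
    linarith
  · have c0 : (t - (9 - n)) * m ≤ J * m := Nat.mul_le_mul_right _ (by omega)
    refine caseA (j := t - (9 - n)) (c := 9 - n) H (by omega) (by omega) (by omega) b4 ?_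
      (by omega)
    rw [show n + (9 - n) = 3 ^ 2 by omega, Nat.cast_pow, Real.sqrt_sq (Nat.cast_nonneg _)]
    have c1 : ((4 * n + t : ℕ) : ℝ) * m ^ 2 < d ^ 2 := by exact_mod_cast not_le.1 hN
    have c2 : m * √((4 * n + t : ℕ) : ℝ) < d :=
      lt_of_pow_lt_pow_left₀ 2 (Nat.cast_nonneg _) (by nlinarith)
    push_cast at c2 ⊢
    linarith

theorem lower {R m : ℕ} (hR : 36 ≤ R) (hR' : R ≤ 64) (H : ∀ r, R ≤ r → Cert r) (hm : 2 ≤ m) :
    ∀ r, R ≤ r → ∀ d, (d + 2).choose 2 ≤ r * (m + 1).choose 2 → gd d (replicate r m) ≤ 0 := by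
  have crit : ∀ r, (∀ d, (d + 2).choose 2 ≤ r * (m + 1).choose 2 →
      r * (m + 1).choose 2 ≤ (d + 1 + 2).choose 2 → gd d (replicate r m) ≤ 0) →
      ∀ d, (d + 2).choose 2 ≤ r * (m + 1).choose 2 → gd d (replicate r m) ≤ 0 := by
    intro r h
    have key : ∀ k d, (d + 2).choose 2 ≤ r * (m + 1).choose 2 →
        r * (m + 1).choose 2 ≤ (d + 2).choose 2 + k → gd d (replicate r m) ≤ 0 := by
      intro k
      induction k with
      | zero => exact fun d h1 h2 => h d h1 (by have := choose_step d; omega)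
      | succ k ih =>
        intro d h1 h2
        have := choose_step d
        by_cases h3 : r * (m + 1).choose 2 ≤ (d + 1 + 2).choose 2
        · exact h d h1 h3
        · exact (gd_deg (Nat.le_succ d) _).trans (ih (d + 1) (by omega) (by omega))
    exact fun d hd => key (r * (m + 1).choose 2) d hd (by omega)
  intro r hr
  induction r, hr using Nat.le_induction with
  | base => exact crit R fun d h1 h2 => lower_step hR (H R le_rfl) hm h1 h2 (Or.inl hR')
  | succ r hr ih =>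
    refine crit (r + 1) fun d h1 h2 => ?_
    by_cases h3 : (d + 2).choose 2 ≤ r * (m + 1).choose 2
    · rw [replicate_add]
      exact (gd_add _ _ _).trans (ih d h3)
    · exact lower_step (by omega) (H _ (by omega)) hm h1 h2
        (Or.inr (by rw [Nat.add_sub_cancel]; omega))

/-- The expected dimension for all numbers of points for which there are certificates. -/
theorem ke_of_cert {R : ℕ} (hR : 36 ≤ R) (hR' : R ≤ 64) (H : ∀ r, R ≤ r → Cert r) {r : ℕ}
    (hr : R ≤ r) (m d : ℕ) :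
    KE (tri (d + 1)) (fun _ : Fin r => m) ((d + 2).choose 2 - r * (m + 1).choose 2) := by
  rcases m with _ | _ | m
  · simpa using ke_zero (fun _ : Fin r => 0) d
  · simpa using ke_one r d
  refine gd_le_iff.1 ?_
  rw [ms_const]
  rcases le_total ((d + 2).choose 2) (r * (m + 1 + 1 + 1).choose 2) with h | h
  · exact (lower hR hR' H (by omega) r hr d h).trans (Nat.zero_le _)
  · exact upper (by omega) (H r hr) (by omega) d h

end Pool.Agent.P.MP_8707bd_ag.Col
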